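import Pool.Agent.Y955.CH.Odd

/-!
# The partial sums of `λ(n)λ(n+h)` at every scale, shifts congruent to `2` modulo `4`
-/

set_option autoImplicit false

namespace Pool.Agent.Y955.CH

open Finset Filter
open Pool.Agent.TH833.BL (S)
open Pool.Agent.H376R2.MR (lam dec_lam_mul)
open Pool.Agent.Y326 (ps)

/-- equal values at distance `2k` on the odd numbers, `k` odd -/
lemma chg_two_h (l : ℕ) : ∃ δ : ℝ, 0 < δ ∧ ∃ Y₀ : ℕ, ∀ y, Y₀ ≤ y →
    δ * y ≤ (((Ico y (2 * y)).filter (fun m => lam (2 * m + 1) = lam (2 * m + 1 + 2 * (2 * l + 1)))).card : ℝ) := by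
  obtain ⟨δ, hδ, Y₀, hc⟩ := chg_two
  refine chg_scale (fun m => lam (2 * m + 1) = lam (2 * m + 3))
    (fun m => lam (2 * m + 1) = lam (2 * m + 1 + 2 * (2 * l + 1))) (2 * l + 1) l (by omega) ?_ δ hδ Y₀ hc
  intro j hj he
  have h1 : (lam ((2 * l + 1) * (2 * j + 1)) : ℝ) = lam (2 * l + 1) * lam (2 * j + 1) :=
    lam_mul' (by omega) (by omega)
  have h2 : (lam ((2 * l + 1) * (2 * j + 3)) : ℝ) = lam (2 * l + 1) * lam (2 * j + 3) :=
    lam_mul' (by omega) (by omega)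
  have h3 : (lam ((2 * l + 1) * (2 * j + 1)) : ℝ) = lam ((2 * l + 1) * (2 * j + 3)) := by
    rw [h1, h2, he]
  rw [show 2 * ((2 * l + 1) * j + l) + 1 = (2 * l + 1) * (2 * j + 1) by ring,
    show (2 * l + 1) * (2 * j + 1) + 2 * (2 * l + 1) = (2 * l + 1) * (2 * j + 3) by ring]
  exact_mod_cast h3

/-- the defect of the triple `2m+1, 2m+1+k, 2m+1+2k`, `k = 2l+1` -/
noncomputable def Eh (l m : ℕ) : ℝ := sh (2 * (2 * l + 1)) (2 * m + 1) + 1 +
  (sh (2 * l + 1) (2 * m + 1) + sh (2 * l + 1) (2 * (m + l) + 2))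

lemma Eh_nonneg (l m : ℕ) : 0 ≤ Eh l m := by
  have h := triple (lamr (2 * m + 1)) (lamr (2 * (m + l) + 2)) (lamr (2 * m + 1 + 2 * (2 * l + 1)))
  unfold Eh sh
  rw [show 2 * m + 1 + (2 * l + 1) = 2 * (m + l) + 2 by ring,
    show 2 * (m + l) + 2 + (2 * l + 1) = 2 * m + 1 + 2 * (2 * l + 1) by ring]
  linarith

/-- the basic inequality -/
lemma basic_h (l N : ℕ) : ∑ m ∈ range N, Eh l m - 2 * N - 2 * l ≤ ∑ n ∈ Icc 1 (4 * N), sh (2 * (2 * l + 1)) n := by
  set k : ℕ := 2 * l + 1 with hk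
  have h1 := range_two' (sh (2 * k)) (2 * N)
  rw [show 2 * (2 * N) = 4 * N by ring] at h1
  rw [h1, sum_add_distrib]
  have h2 : ∑ m ∈ range (2 * N), sh (2 * k) (2 * m + 2) = ∑ n ∈ Icc 1 (2 * N), sh k n := by
    have e1 : Icc 1 (2 * N) = (range (2 * N)).image (fun m => m + 1) := by
      ext n
      rw [mem_Icc, mem_image]
      constructor
      · intro h
        exact ⟨n - 1, mem_range.2 (by omega), by omega⟩
      · rintro ⟨m, hm, rfl⟩
        rw [mem_range] at hm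
        omega
    rw [e1, sum_image (fun a _ b _ h => by simpa using h)]
    refine sum_congr rfl fun m _ => ?_
    rw [show 2 * m + 2 = 2 * (m + 1) by ring, sh_double k (by omega)]
  have h3 := range_two' (sh k) N
  have h4 : ∑ m ∈ range (2 * N), sh (2 * k) (2 * m + 1) ≥ ∑ m ∈ range N, sh (2 * k) (2 * m + 1) - N := by
    rw [range_eq_Ico, range_eq_Ico, ← sum_Ico_consecutive _ (Nat.zero_le N) (show N ≤ 2 * N by omega)]
    have h5 : ∑ m ∈ Ico N (2 * N), (-1 : ℝ) ≤ ∑ m ∈ Ico N (2 * N), sh (2 * k) (2 * m + 1) :=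
      sum_le_sum fun m _ => le_sh _ _
    rw [sum_const, Nat.card_Ico, show 2 * N - N = N by omega, nsmul_eq_mul] at h5
    linarith
  have h5 : ∑ m ∈ range N, Eh l m = ∑ m ∈ range N, sh (2 * k) (2 * m + 1) + N +
      (∑ m ∈ range N, sh k (2 * m + 1) + ∑ m ∈ range N, sh k (2 * (m + l) + 2)) := by
    unfold Eh
    rw [← hk, sum_add_distrib, sum_add_distrib, sum_add_distrib, sum_const, card_range, nsmul_eq_mul, mul_one]
  have h6 := shift_sum (fun m => sh k (2 * m + 2)) 1 0 N (Nat.zero_le N) (fun n _ => sh_abs _ _) l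
  have h7 := (abs_le.1 h6).2
  rw [← range_eq_Ico] at h7
  rw [sum_add_distrib] at h3
  rw [h2]
  linarith

/-- the lower bound along the multiples of `4 * 2 ^ J` -/
theorem even_core (l : ℕ) : ∃ J : ℕ, ∃ Y : ℕ, ∀ y : ℕ, Y ≤ y →
    -(2 * ((2 : ℝ) ^ J * y)) + y ≤ ∑ n ∈ Icc 1 (4 * (2 ^ J * y)), sh (2 * (2 * l + 1)) n := by
  classical
  set k : ℕ := 2 * l + 1 with hk
  have hkr : (k : ℝ) = 2 * l + 1 := by rw [hk]; push_cast; ring
  have hl0 : (0 : ℝ) ≤ l := Nat.cast_nonneg l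
  obtain ⟨δ, hδ, Y₀, hchg⟩ := chg_two_h l
  rw [← hk] at hchg
  obtain ⟨W₀, hW⟩ := tao_window (f := lam) Pool.Agent.TH823.MRS.lam_bdd
    (fun p m hp hpm => Pool.Agent.TH823.MRS.lam_flip p m hp hpm) Pool.Agent.TH823.MRS.expo_lam k
    (by omega) (δ / 4) (by positivity)
  obtain ⟨J₀, hJ₀⟩ := exists_nat_ge (16 / δ)
  set J : ℕ := max J₀ W₀ with hJ
  have hJW : W₀ ≤ 2 ^ J := by
    have h1 : J < 2 ^ J := Nat.lt_pow_self (by norm_num)
    have h2 : W₀ ≤ J := le_max_right _ _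
    omega
  have hJδ : 16 ≤ J * δ := by
    have h1 : (J₀ : ℝ) ≤ J := by exact_mod_cast le_max_left _ _
    have h2 := hJ₀.trans h1
    rw [div_le_iff₀ hδ] at h2
    exact h2
  refine ⟨J, max Y₀ (4 * l + 2), fun y hy => ?_⟩
  have hy0 : Y₀ ≤ y := (le_max_left _ _).trans hy
  have hy2 : 4 * l + 2 ≤ y := (le_max_right _ _).trans hy
  have hy3 : 4 * (l : ℝ) + 2 ≤ y := by exact_mod_cast hy2
  have hy4 : (2 : ℝ) ≤ y := by linarith
  have hyJ : y ≤ 2 ^ J * y := Nat.le_mul_of_pos_left y (by positivity)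
  by_contra hcon
  push Not at hcon
  have hb := basic_h l (2 ^ J * y)
  rw [← hk] at hb
  push_cast at hb
  have hE : ∑ m ∈ range (2 ^ J * y), Eh l m ≤ 2 * y := by linarith
  -- the window
  have h1 : ∑ m ∈ Ico y (2 ^ J * y), Eh l m / m ≤ 2 := by
    have h2 : ∑ m ∈ Ico y (2 ^ J * y), Eh l m / m ≤ ∑ m ∈ Ico y (2 ^ J * y), Eh l m / y := by
      refine sum_le_sum fun m hm => ?_
      rw [mem_Ico] at hm
      exact div_le_div_of_nonneg_left (Eh_nonneg l m) (by linarith) (by exact_mod_cast hm.1)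
    have h3 : ∑ m ∈ Ico y (2 ^ J * y), Eh l m ≤ ∑ m ∈ range (2 ^ J * y), Eh l m := by
      refine sum_le_sum_of_subset_of_nonneg ?_ fun m _ _ => Eh_nonneg l m
      intro m hm
      rw [mem_Ico] at hm
      exact mem_range.2 hm.2
    rw [← sum_div] at h2
    refine h2.trans ?_
    rw [div_le_iff₀ (by linarith)]
    linarith
  -- Tao
  have hx : 2 ^ J * (2 * y) / 2 ^ J = 2 * y := Nat.mul_div_cancel_left _ (by positivity)
  have h4 := hW (2 ^ J) (2 ^ J * (2 * y)) hJW (Nat.le_mul_of_pos_right _ (by omega))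
  rw [hx, sh_ps] at h4
  have h5 : S (sh k) (2 ^ J * (2 * y)) - S (sh k) (2 * y) = ∑ m ∈ Ico y (2 ^ J * y),
      (sh k (2 * m + 1) / ((2 * m + 1 : ℕ) : ℝ) + sh k (2 * m + 2) / ((2 * m + 2 : ℕ) : ℝ)) := by
    have hS : ∀ N : ℕ, S (sh k) (2 * N) = ∑ m ∈ range N,
        (sh k (2 * m + 1) / ((2 * m + 1 : ℕ) : ℝ) + sh k (2 * m + 2) / ((2 * m + 2 : ℕ) : ℝ)) := by
      intro N
      unfold S
      rw [← range_two' (fun n => sh k n / (n : ℝ)) N]
      exact sum_congr rfl fun n _ => by ring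
    rw [show 2 ^ J * (2 * y) = 2 * (2 ^ J * y) by ring, hS, hS, range_eq_Ico, range_eq_Ico,
      ← sum_Ico_consecutive _ (Nat.zero_le y) hyJ]
    ring
  have hsh := shift_sum (fun m => sh k (2 * m + 2) / ((2 * m + 2 : ℕ) : ℝ)) (1 / (2 * y)) y (2 ^ J * y) hyJ
    (fun n hn => by
      have hn0 : (y : ℝ) ≤ n := by exact_mod_cast hn
      rw [abs_div, Nat.abs_cast]
      push_cast
      have := sh_abs k (2 * n + 2)
      have h5 : (0 : ℝ) < 2 * n + 2 := by linarith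
      rw [div_le_div_iff₀ h5 (by linarith)]
      nlinarith) l
  have hsh' := (abs_le.1 hsh).1
  have h6 : ∑ m ∈ Ico y (2 ^ J * y), (sh k (2 * m + 1) / ((2 * m + 1 : ℕ) : ℝ) +
      sh k (2 * (m + l) + 2) / ((2 * (m + l) + 2 : ℕ) : ℝ)) ≤
      ∑ m ∈ Ico y (2 ^ J * y), ((sh k (2 * m + 1) + sh k (2 * (m + l) + 2)) / (2 * m) +
        (l + 1) * (1 / (m : ℝ) ^ 2)) := by
    refine sum_le_sum fun m hm => ?_
    rw [mem_Ico] at hm
    have hm0 : (1 : ℝ) ≤ m := by exact_mod_cast (by omega : 1 ≤ m)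
    push_cast
    have e1 : sh k (2 * m + 1) / (2 * (m : ℝ) + 1) + sh k (2 * (m + l) + 2) / (2 * ((m : ℝ) + l) + 2) =
        (sh k (2 * m + 1) + sh k (2 * (m + l) + 2)) / (2 * m) - sh k (2 * m + 1) * (1 / (2 * m * (2 * m + 1))) -
          sh k (2 * (m + l) + 2) * ((l + 1) / (2 * m * (m + l + 1))) := by
      field_simp
      ring
    rw [e1]
    have h7 := le_sh k (2 * m + 1)
    have h8 := le_sh k (2 * (m + l) + 2)
    have h9 : 1 / (2 * (m : ℝ) * (2 * m + 1)) ≤ 1 / (2 * (m : ℝ) ^ 2) := by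
      apply one_div_le_one_div_of_le (by positivity)
      nlinarith
    have h10 : ((l : ℝ) + 1) / (2 * (m : ℝ) * (m + l + 1)) ≤ (l + 1) / (2 * (m : ℝ) ^ 2) := by
      apply div_le_div_of_nonneg_left (by positivity) (by positivity)
      nlinarith
    have h11 : (0 : ℝ) ≤ 1 / (2 * m * (2 * m + 1)) := by positivity
    have h12 : (0 : ℝ) ≤ (l + 1) / (2 * m * (m + l + 1)) := by positivity
    have h13 : ((l : ℝ) + 1) * (1 / (m : ℝ) ^ 2) = (l + 1) / (2 * (m : ℝ) ^ 2) + (l + 1) / (2 * (m : ℝ) ^ 2) := by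
      field_simp
      norm_num
    have h14 : 1 / (2 * (m : ℝ) ^ 2) ≤ (l + 1) / (2 * (m : ℝ) ^ 2) := by
      apply div_le_div_of_nonneg_right (by linarith) (by positivity)
    have h15 : -(sh k (2 * m + 1) * (1 / (2 * m * (2 * m + 1)))) ≤ 1 / (2 * m * (2 * m + 1)) := by
      nlinarith
    have h16 : -(sh k (2 * (m + l) + 2) * ((l + 1) / (2 * m * (m + l + 1)))) ≤ (l + 1) / (2 * m * (m + l + 1)) := by
      nlinarith
    rw [h13]
    linarith
  have h7 := (abs_le.1 h4).1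
  rw [h5, sum_add_distrib] at h7
  rw [sum_add_distrib] at h6
  have h7' : -(δ / 4 * Real.log ((2 ^ J : ℕ) : ℝ)) ≤ ∑ m ∈ Ico y (2 ^ J * y),
      ((sh k (2 * m + 1) + sh k (2 * (m + l) + 2)) / (2 * m) + (l + 1) * (1 / (m : ℝ) ^ 2)) + 1 := by
    have h8 : 2 * (l : ℝ) * (1 / (2 * y)) ≤ 1 := by
      rw [mul_one_div, div_le_iff₀ (by linarith)]
      linarith
    linarith
  rw [sum_add_distrib, ← mul_sum] at h7'
  have h8 := inv_sq y (by omega) (2 ^ J * y) hyJ
  have h8' : ((l : ℝ) + 1) * ∑ m ∈ Ico y (2 ^ J * y), 1 / (m : ℝ) ^ 2 ≤ 1 := by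
    have h9 : ((l : ℝ) + 1) * (2 / (y : ℝ)) ≤ 1 := by
      rw [mul_div_assoc', div_le_iff₀ (by linarith)]; linarith
    have h10 : 0 ≤ 2 / ((2 ^ J * y : ℕ) : ℝ) := by positivity
    have h11 : ((l : ℝ) + 1) * ∑ m ∈ Ico y (2 ^ J * y), 1 / (m : ℝ) ^ 2 ≤ (l + 1) * (2 / (y : ℝ)) :=
      mul_le_mul_of_nonneg_left (by linarith) (by linarith)
    linarith
  have h9 : ∑ m ∈ Ico y (2 ^ J * y), (sh (2 * k) (2 * m + 1) + 1) / (m : ℝ) =
      ∑ m ∈ Ico y (2 ^ J * y), Eh l m / m -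
        2 * ∑ m ∈ Ico y (2 ^ J * y), (sh k (2 * m + 1) + sh k (2 * (m + l) + 2)) / (2 * m) := by
    rw [mul_sum, ← sum_sub_distrib]
    refine sum_congr rfl fun m hm => ?_
    rw [mem_Ico] at hm
    have hm0 : (0 : ℝ) < m := by exact_mod_cast (by omega : 0 < m)
    unfold Eh
    rw [← hk]
    field_simp
    ring
  -- the lower bound
  have h10 : J * δ ≤ ∑ m ∈ Ico y (2 ^ J * y), (sh (2 * k) (2 * m + 1) + 1) / (m : ℝ) := by
    have hblk : ∀ (F : ℕ → ℝ) (j : ℕ), ∑ n ∈ Ico y (2 ^ j * y), F n =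
        ∑ i ∈ range j, ∑ n ∈ Ico (2 ^ i * y) (2 * (2 ^ i * y)), F n := by
      intro F j
      induction j with
      | zero => simp
      | succ j ih =>
        rw [sum_range_succ, ← ih, show 2 * (2 ^ j * y) = 2 ^ (j + 1) * y by ring]
        rw [sum_Ico_consecutive F]
        · have : 1 ≤ 2 ^ j := Nat.one_le_pow _ _ (by norm_num)
          nlinarith
        · rw [pow_succ]
          have : 0 ≤ 2 ^ j * y := Nat.zero_le _
          nlinarith
    rw [hblk]
    have h11 : ∑ i ∈ range J, δ ≤ ∑ i ∈ range J, ∑ m ∈ Ico (2 ^ i * y) (2 * (2 ^ i * y)),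
        (sh (2 * k) (2 * m + 1) + 1) / (m : ℝ) := by
      refine sum_le_sum fun i _ => ?_
      set a : ℕ := 2 ^ i * y with ha
      have h5 : y ≤ a := Nat.le_mul_of_pos_left y (by positivity)
      have h12 := hchg a (hy0.trans h5)
      have ha0 : (0 : ℝ) < a := by exact_mod_cast (by omega : 0 < a)
      calc δ ≤ (((Ico a (2 * a)).filter (fun m => lam (2 * m + 1) = lam (2 * m + 1 + 2 * k))).card : ℝ) *
            (1 / a) := by
            rw [mul_one_div, le_div_iff₀ ha0]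
            exact h12
        _ = ∑ m ∈ (Ico a (2 * a)).filter (fun m => lam (2 * m + 1) = lam (2 * m + 1 + 2 * k)), 1 / (a : ℝ) := by
            rw [sum_const, nsmul_eq_mul]
        _ ≤ ∑ m ∈ (Ico a (2 * a)).filter (fun m => lam (2 * m + 1) = lam (2 * m + 1 + 2 * k)),
            (sh (2 * k) (2 * m + 1) + 1) / (m : ℝ) := by
            refine sum_le_sum fun m hm => ?_
            rw [mem_filter, mem_Ico] at hm
            have hm0 : (0 : ℝ) < m := by exact_mod_cast (by omega : 0 < m)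
            have hma : (m : ℝ) ≤ 2 * a := by exact_mod_cast hm.1.2.le
            have e : sh (2 * k) (2 * m + 1) = 1 := by
              unfold sh
              rw [← hm.2]
              exact lamr_sq _
            rw [e, div_le_div_iff₀ ha0 hm0]
            linarith
        _ ≤ _ := by
            refine sum_le_sum_of_subset_of_nonneg (filter_subset _ _) fun m _ _ => ?_
            have := le_sh (2 * k) (2 * m + 1)
            exact div_nonneg (by linarith) (Nat.cast_nonneg m)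
    rw [sum_const, card_range, nsmul_eq_mul] at h11
    exact h11
  have h11 : Real.log ((2 ^ J : ℕ) : ℝ) ≤ J * (3 / 4) := by
    push_cast
    rw [Real.log_pow]
    apply mul_le_mul_of_nonneg_left _ (Nat.cast_nonneg J)
    have := Real.log_two_lt_d9
    linarith
  have h12 : δ / 4 * Real.log ((2 ^ J : ℕ) : ℝ) ≤ δ / 4 * (J * (3 / 4)) :=
    mul_le_mul_of_nonneg_left h11 (by positivity)
  nlinarith

/-- **Lower bound at every scale, shifts congruent to `2` modulo `4`.** -/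
theorem even_lower (l : ℕ) : ∃ δ : ℝ, 0 < δ ∧ ∃ x₀ : ℕ, ∀ x : ℕ, x₀ ≤ x →
    -(1 / 2 - δ) * x ≤ ∑ n ∈ Icc 1 x, sh (2 * (2 * l + 1)) n := by
  obtain ⟨J, Y, h⟩ := even_core l
  refine of_multiples (fun N => ∑ n ∈ Icc 1 N, sh (2 * (2 * l + 1)) n) (sum_lip _ (sh_abs _)) (4 * 2 ^ J)
    (by have := Nat.one_le_two_pow (n := J); omega)
    (1 / 2) 1 (by norm_num) (by norm_num) Y fun y hy => ?_
  have := h y hy
  rw [show 4 * 2 ^ J * y = 4 * (2 ^ J * y) by ring]
  push_cast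
  linarith

end Pool.Agent.Y955.CH
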