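import Pool.Agent.Y955.CH.Even

/-!
# Final forms, real cut-off
-/

set_option autoImplicit false

namespace Pool.Agent.Y955.CH

open Finset

lemma fin_aux (F : ℕ → ℝ) (c : ℝ) (hc : 0 < c)
    (h1 : ∃ δ : ℝ, 0 < δ ∧ ∃ x₀ : ℕ, ∀ x : ℕ, x₀ ≤ x → -(c - δ) * x ≤ ∑ n ∈ Icc 1 x, F n)
    (h2 : ∃ δ : ℝ, 0 < δ ∧ ∃ x₀ : ℕ, ∀ x : ℕ, x₀ ≤ x → ∑ n ∈ Icc 1 x, F n ≤ (1 - δ) * x) :
    ∃ δ : ℝ, 0 < δ ∧ ∃ x₀ : ℝ, ∀ x : ℝ, x₀ ≤ x →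
      -(c - δ) * x ≤ ∑ n ∈ Icc 1 ⌊x⌋₊, F n ∧ ∑ n ∈ Icc 1 ⌊x⌋₊, F n ≤ (1 - δ) * x := by
  obtain ⟨d1, hd1, x1, h1⟩ := h1
  obtain ⟨d2, hd2, x2, h2⟩ := h2
  refine ⟨min (min d1 d2) (min c 1), lt_min (lt_min hd1 hd2) (lt_min hc one_pos), max x1 x2, fun x hx => ?_⟩
  set d : ℝ := min (min d1 d2) (min c 1) with hd
  have e1 : d ≤ d1 := (min_le_left _ _).trans (min_le_left _ _)
  have e2 : d ≤ d2 := (min_le_left _ _).trans (min_le_right _ _)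
  have e3 : d ≤ c := (min_le_right _ _).trans (min_le_left _ _)
  have e4 : d ≤ 1 := (min_le_right _ _).trans (min_le_right _ _)
  have hx0 : 0 ≤ x := (Nat.cast_nonneg x1).trans ((le_max_left _ _).trans hx)
  have f1 : x1 ≤ ⌊x⌋₊ := Nat.le_floor ((le_max_left _ _).trans hx)
  have f2 : x2 ≤ ⌊x⌋₊ := Nat.le_floor ((le_max_right _ _).trans hx)
  have g1 := h1 _ f1
  have g2 := h2 _ f2
  have hfl : (⌊x⌋₊ : ℝ) ≤ x := Nat.floor_le hx0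
  have hf0 : (0 : ℝ) ≤ ⌊x⌋₊ := Nat.cast_nonneg _
  constructor
  · refine le_trans ?_ g1
    have k1 : (c - d) * (⌊x⌋₊ : ℝ) ≤ (c - d) * x := mul_le_mul_of_nonneg_left hfl (by linarith)
    have k2 : d * (⌊x⌋₊ : ℝ) ≤ d1 * (⌊x⌋₊ : ℝ) := mul_le_mul_of_nonneg_right e1 hf0
    linarith
  · refine g2.trans ?_
    have k1 : (1 - d) * (⌊x⌋₊ : ℝ) ≤ (1 - d) * x := mul_le_mul_of_nonneg_left hfl (by linarith)
    have k2 : d * (⌊x⌋₊ : ℝ) ≤ d2 * (⌊x⌋₊ : ℝ) := mul_le_mul_of_nonneg_right e2 hf0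
    linarith

lemma sh_eq (h n : ℕ) : sh h n = (-1 : ℝ) ^ ArithmeticFunction.cardFactors n *
    (-1 : ℝ) ^ ArithmeticFunction.cardFactors (n + h) := by
  unfold sh Pool.Agent.H376R2.MR.lam
  push_cast
  rfl

/-- odd shifts -/
theorem odd_fin (h : ℕ) (hh : Odd h) : ∃ δ : ℝ, 0 < δ ∧ ∃ x₀ : ℝ, ∀ x : ℝ, x₀ ≤ x →
    -(1 / 3 - δ) * x ≤ ∑ n ∈ Icc 1 ⌊x⌋₊, (-1 : ℝ) ^ ArithmeticFunction.cardFactors n *
      (-1 : ℝ) ^ ArithmeticFunction.cardFactors (n + h) ∧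
    ∑ n ∈ Icc 1 ⌊x⌋₊, (-1 : ℝ) ^ ArithmeticFunction.cardFactors n *
      (-1 : ℝ) ^ ArithmeticFunction.cardFactors (n + h) ≤ (1 - δ) * x := by
  obtain ⟨k, rfl⟩ := hh
  have := fin_aux (sh (2 * k + 1)) (1 / 3) (by norm_num) (odd_lower k) (all_upper _ (by omega))
  simpa only [sh_eq] using this

/-- shifts congruent to `2` modulo `4` -/
theorem even_fin (h : ℕ) (hh : h % 4 = 2) : ∃ δ : ℝ, 0 < δ ∧ ∃ x₀ : ℝ, ∀ x : ℝ, x₀ ≤ x →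
    -(1 / 2 - δ) * x ≤ ∑ n ∈ Icc 1 ⌊x⌋₊, (-1 : ℝ) ^ ArithmeticFunction.cardFactors n *
      (-1 : ℝ) ^ ArithmeticFunction.cardFactors (n + h) ∧
    ∑ n ∈ Icc 1 ⌊x⌋₊, (-1 : ℝ) ^ ArithmeticFunction.cardFactors n *
      (-1 : ℝ) ^ ArithmeticFunction.cardFactors (n + h) ≤ (1 - δ) * x := by
  obtain ⟨l, rfl⟩ : ∃ l, h = 2 * (2 * l + 1) := ⟨h / 4, by omega⟩
  have := fin_aux (sh (2 * (2 * l + 1))) (1 / 2) (by norm_num) (even_lower l) (all_upper _ (by omega))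
  simpa only [sh_eq] using this

end Pool.Agent.Y955.CH
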