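import Pool.Agent.TH823.MRS.Circ5

/-!
# Sign changes from exponential sums over short windows (Matomäki–Radziwiłł–Tao)
-/

set_option autoImplicit false

namespace Pool.Agent.Y955.CH

open Finset Filter
open Pool.Agent.TH823.MRS (ExpoSmall expo_lam)
open Pool.Agent.H807R2.Dav (ee ee_zero)
open Pool.Agent.H376R2.MR (lam)

/-! ### the combinatorial part -/

/-- few sign changes give long constant windows -/
lemma few_changes (g : ℕ → ℤ) (hg : ∀ n, g n = 1 ∨ g n = -1) (y H : ℕ) :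
    ((y : ℝ) - H * ((Ico y (2 * y + H)).filter (fun n => g n ≠ g (n + 1))).card) * H ≤
      ∑ x ∈ Ico y (2 * y), |((∑ j ∈ range H, g (x + j) : ℤ) : ℝ)| := by
  classical
  set C := (Ico y (2 * y + H)).filter (fun n => g n ≠ g (n + 1)) with hC
  set B := (Ico y (2 * y)).filter (fun x => ∃ j < H, g (x + j) ≠ g (x + j + 1)) with hB
  have hBc : B.card ≤ H * C.card := by
    have h1 : B ⊆ C.biUnion (fun n => (range H).image (fun j => n - j)) := by
      intro x hx
      rw [hB, mem_filter, mem_Ico] at hx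
      obtain ⟨⟨h1, h2⟩, j, hj, hne⟩ := hx
      rw [mem_biUnion]
      refine ⟨x + j, ?_, ?_⟩
      · rw [hC, mem_filter, mem_Ico]
        exact ⟨⟨by omega, by omega⟩, hne⟩
      · rw [mem_image]
        exact ⟨j, mem_range.2 hj, by omega⟩
    refine (card_le_card h1).trans (card_biUnion_le.trans ?_)
    calc ∑ n ∈ C, ((range H).image (fun j => n - j)).card ≤ ∑ n ∈ C, H :=
          sum_le_sum fun n _ => card_image_le.trans (card_range H).le
      _ = H * C.card := by rw [sum_const, smul_eq_mul, mul_comm]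
  have hgood : ∀ x ∈ (Ico y (2 * y)) \ B, (H : ℝ) ≤ |((∑ j ∈ range H, g (x + j) : ℤ) : ℝ)| := by
    intro x hx
    rw [Finset.mem_sdiff] at hx
    obtain ⟨h1, h2⟩ := hx
    have h3 : ∀ j < H, g (x + j) = g (x + j + 1) := by
      intro j hj
      by_contra hne
      exact h2 (by rw [hB, mem_filter]; exact ⟨h1, j, hj, hne⟩)
    have h4 : ∀ j, j ≤ H → g (x + j) = g x := by
      intro j
      induction j with
      | zero => intro _; rfl
      | succ j ih =>
        intro hj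
        rw [← add_assoc, ← h3 j (by omega), ih (by omega)]
    have h5 : ∑ j ∈ range H, g (x + j) = H * g x := by
      rw [sum_congr rfl fun j hj => h4 j (mem_range.1 hj).le, sum_const, card_range, nsmul_eq_mul]
    rw [h5]
    rcases hg x with h6 | h6
    · rw [h6]; push_cast; rw [mul_one, abs_of_nonneg (Nat.cast_nonneg H)]
    · rw [h6]; push_cast; rw [mul_neg, mul_one, abs_neg, abs_of_nonneg (Nat.cast_nonneg H)]
  have h1 : (((Ico y (2 * y)) \ B).card : ℝ) * H ≤
      ∑ x ∈ (Ico y (2 * y)) \ B, |((∑ j ∈ range H, g (x + j) : ℤ) : ℝ)| := by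
    calc (((Ico y (2 * y)) \ B).card : ℝ) * H = ∑ x ∈ (Ico y (2 * y)) \ B, (H : ℝ) := by
          rw [sum_const, nsmul_eq_mul]
      _ ≤ _ := sum_le_sum hgood
  have h2 : ∑ x ∈ (Ico y (2 * y)) \ B, |((∑ j ∈ range H, g (x + j) : ℤ) : ℝ)| ≤
      ∑ x ∈ Ico y (2 * y), |((∑ j ∈ range H, g (x + j) : ℤ) : ℝ)| :=
    sum_le_sum_of_subset_of_nonneg sdiff_subset fun _ _ _ => abs_nonneg _
  have h3 : (y : ℝ) - H * C.card ≤ (((Ico y (2 * y)) \ B).card : ℝ) := by
    have h4 : y ≤ ((Ico y (2 * y)) \ B).card + B.card := by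
      have h5 := card_sdiff_add_card (Ico y (2 * y)) B
      have h6 : (Ico y (2 * y)).card ≤ ((Ico y (2 * y)) ∪ B).card := card_le_card subset_union_left
      rw [Nat.card_Ico] at h6
      omega
    have h5 : (y : ℝ) ≤ ((Ico y (2 * y)) \ B).card + B.card := by exact_mod_cast h4
    have h6 : (B.card : ℝ) ≤ H * C.card := by exact_mod_cast hBc
    linarith
  exact (mul_le_mul_of_nonneg_right h3 (Nat.cast_nonneg H)).trans (h1.trans h2)

/-- the dual weight -/
noncomputable def wt (θ : ℕ → ℝ) (y H n : ℕ) : ℝ :=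
  ∑ x ∈ Ico y (2 * y), if x ≤ n ∧ n < x + H then θ x else 0

lemma wt_bd {θ : ℕ → ℝ} (hθ : ∀ x, |θ x| ≤ 1) (y H n : ℕ) : |wt θ y H n| ≤ H := by
  classical
  unfold wt
  refine (abs_sum_le_sum_abs _ _).trans ?_
  calc ∑ x ∈ Ico y (2 * y), |if x ≤ n ∧ n < x + H then θ x else 0| ≤
      ∑ x ∈ Ico y (2 * y), if x ≤ n ∧ n < x + H then (1 : ℝ) else 0 := by
        refine sum_le_sum fun x _ => ?_
        split_ifs
        · exact hθ x
        · rw [abs_zero]
    _ = (((Ico y (2 * y)).filter (fun x => x ≤ n ∧ n < x + H)).card : ℝ) := by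
        rw [← sum_filter, sum_const, nsmul_eq_mul, mul_one]
    _ ≤ H := by
        have h1 : ((Ico y (2 * y)).filter (fun x => x ≤ n ∧ n < x + H)) ⊆
            (range H).image (fun j => n - j) := by
          intro x hx
          rw [mem_filter] at hx
          rw [mem_image]
          exact ⟨n - x, mem_range.2 (by omega), by omega⟩
        exact_mod_cast (card_le_card h1).trans (card_image_le.trans (card_range H).le)

lemma wt_succ {θ : ℕ → ℝ} (hθ : ∀ x, |θ x| ≤ 1) (y H n : ℕ) :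
    |wt θ y H (n + 1) - wt θ y H n| ≤ 2 := by
  classical
  unfold wt
  rw [← sum_sub_distrib]
  refine (abs_sum_le_sum_abs _ _).trans ?_
  calc ∑ x ∈ Ico y (2 * y), |(if x ≤ n + 1 ∧ n + 1 < x + H then θ x else 0) -
        (if x ≤ n ∧ n < x + H then θ x else 0)| ≤
      ∑ x ∈ Ico y (2 * y), ((if x = n + 1 then (1 : ℝ) else 0) + if x + H = n + 1 then (1 : ℝ) else 0) := by
        refine sum_le_sum fun x _ => ?_
        have h1 := hθ x
        have h2 := abs_nonneg (θ x)
        by_cases h3 : x ≤ n + 1 ∧ n + 1 < x + H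
        · by_cases h4 : x ≤ n ∧ n < x + H
          · rw [if_pos h3, if_pos h4, sub_self, abs_zero]
            split_ifs <;> norm_num
          · rw [if_pos h3, if_neg h4, sub_zero, if_pos (by omega : x = n + 1)]
            split_ifs <;> linarith
        · by_cases h4 : x ≤ n ∧ n < x + H
          · rw [if_neg h3, if_pos h4, zero_sub, abs_neg, if_pos (by omega : x + H = n + 1)]
            split_ifs <;> linarith
          · rw [if_neg h3, if_neg h4, sub_zero, abs_zero]
            split_ifs <;> norm_num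
    _ ≤ 2 := by
        rw [sum_add_distrib, sum_ite_eq' (Ico y (2 * y)) (n + 1) (fun _ => (1 : ℝ))]
        have h1 : (if n + 1 ∈ Ico y (2 * y) then (1 : ℝ) else 0) ≤ 1 := by split_ifs <;> norm_num
        have h2 : ∑ x ∈ Ico y (2 * y), (if x + H = n + 1 then (1 : ℝ) else 0) ≤ 1 := by
          rw [← sum_filter, sum_const, nsmul_eq_mul, mul_one]
          have h3 : ((Ico y (2 * y)).filter (fun x => x + H = n + 1)).card ≤ 1 := by
            rw [card_le_one]
            intro a ha b hb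
            rw [mem_filter] at ha hb
            omega
          exact_mod_cast h3
        linarith

lemma wt_lip {θ : ℕ → ℝ} (hθ : ∀ x, |θ x| ≤ 1) (y H n m : ℕ) :
    |wt θ y H n - wt θ y H m| ≤ 2 * |(n : ℝ) - m| := by
  have key : ∀ m k : ℕ, |wt θ y H (m + k) - wt θ y H m| ≤ 2 * k := by
    intro m k
    induction k with
    | zero => simp
    | succ k ih =>
      have h1 := wt_succ hθ y H (m + k)
      have h2 := abs_sub_le (wt θ y H (m + (k + 1))) (wt θ y H (m + k)) (wt θ y H m)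
      rw [← add_assoc] at h2 ⊢
      push_cast
      linarith
  rcases le_total m n with h | h
  · obtain ⟨k, rfl⟩ := Nat.exists_eq_add_of_le h
    have := key m k
    push_cast
    rw [show (m : ℝ) + k - m = k by ring, Nat.abs_cast]
    exact this
  · obtain ⟨k, rfl⟩ := Nat.exists_eq_add_of_le h
    have := key n k
    push_cast
    rw [show (n : ℝ) - (n + k) = -k by ring, abs_neg, Nat.abs_cast, abs_sub_comm]
    exact this

lemma wt_supp {θ : ℕ → ℝ} {y H n : ℕ} (hH : H ≤ y) (hn : 3 * y ≤ n) : wt θ y H n = 0 := by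
  unfold wt
  refine sum_eq_zero fun x hx => ?_
  rw [mem_Ico] at hx
  rw [if_neg (by omega)]

/-- the duality -/
lemma dual (g : ℕ → ℤ) (y H N : ℕ) (hy : 1 ≤ y) (hH : H ≤ y) (hN : 3 * y ≤ N) :
    ∃ θ : ℕ → ℝ, (∀ x, |θ x| ≤ 1) ∧
      ∑ x ∈ Ico y (2 * y), |((∑ j ∈ range H, g (x + j) : ℤ) : ℝ)| = ∑ n ∈ range N, (g n : ℝ) * wt θ y H n := by
  classical
  have hsg : ∀ x : ℝ, ∃ σ : ℝ, |σ| ≤ 1 ∧ σ * x = |x| := by
    intro x
    rcases le_total 0 x with hx | hx
    · exact ⟨1, by simp, by rw [one_mul, abs_of_nonneg hx]⟩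
    · exact ⟨-1, by simp, by rw [abs_of_nonpos hx]; ring⟩
  choose θ hθ1 hθ2 using fun x : ℕ => hsg ((∑ j ∈ range H, g (x + j) : ℤ) : ℝ)
  refine ⟨θ, hθ1, ?_⟩
  unfold wt
  simp_rw [mul_sum]
  rw [sum_comm]
  refine sum_congr rfl fun x hx => ?_
  rw [mem_Ico] at hx
  rw [← hθ2 x]
  push_cast
  rw [mul_sum]
  have e1 : ∀ n, (g n : ℝ) * (if x ≤ n ∧ n < x + H then θ x else 0) =
      if x ≤ n ∧ n < x + H then (g n : ℝ) * θ x else 0 := by
    intro n
    split_ifs <;> ring
  simp_rw [e1]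
  rw [← sum_filter]
  symm
  refine sum_bij' (fun n _ => n - x) (fun j _ => x + j) ?_ ?_ ?_ ?_ ?_
  · intro n hn
    rw [mem_filter] at hn
    exact mem_range.2 (by omega)
  · intro j hj
    rw [mem_range] at hj
    rw [mem_filter, mem_range]
    omega
  · intro n hn
    rw [mem_filter] at hn
    omega
  · intro j hj
    omega
  · intro n hn
    rw [mem_filter] at hn
    rw [show x + (n - x) = n by omega]
    ring

/-- from a bound for the window sums to a positive proportion of changes -/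
lemma changes_of (g : ℕ → ℤ) (hg : ∀ n, g n = 1 ∨ g n = -1) (H : ℕ) (hH : 1 ≤ H) (y₀ : ℕ)
    (h : ∀ y, y₀ ≤ y → ∑ x ∈ Ico y (2 * y), |((∑ j ∈ range H, g (x + j) : ℤ) : ℝ)| ≤ H * y / 4) :
    ∃ δ : ℝ, 0 < δ ∧ ∃ Y₀ : ℕ, ∀ y, Y₀ ≤ y →
      δ * y ≤ (((Ico y (2 * y)).filter (fun n => g n ≠ g (n + 1))).card : ℝ) := by
  classical
  have hH0 : (1 : ℝ) ≤ H := by exact_mod_cast hH
  refine ⟨1 / (2 * H), by positivity, max y₀ (4 * H ^ 2), fun y hy => ?_⟩
  have h1 := (few_changes g hg y H).trans (h y ((le_max_left _ _).trans hy))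
  set K := ((Ico y (2 * y + H)).filter (fun n => g n ≠ g (n + 1))).card with hK
  set K' := ((Ico y (2 * y)).filter (fun n => g n ≠ g (n + 1))).card with hK'
  have hKK : K ≤ K' + H := by
    have h2 : (Ico y (2 * y + H)).filter (fun n => g n ≠ g (n + 1)) ⊆
        ((Ico y (2 * y)).filter (fun n => g n ≠ g (n + 1))) ∪ (Ico (2 * y) (2 * y + H)) := by
      intro n hn
      rw [mem_filter, mem_Ico] at hn
      rw [mem_union, mem_filter, mem_Ico, mem_Ico]
      rcases lt_or_ge n (2 * y) with h3 | h3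
      · exact Or.inl ⟨⟨hn.1.1, h3⟩, hn.2⟩
      · exact Or.inr ⟨h3, hn.1.2⟩
    refine (card_le_card h2).trans ((card_union_le _ _).trans ?_)
    rw [Nat.card_Ico]
    omega
  have h2 : (y : ℝ) - H * K ≤ y / 4 := by
    have h3 : ((y : ℝ) - H * K) * H ≤ (y / 4) * H := by linarith
    exact le_of_mul_le_mul_right h3 (by linarith)
  have h3 : (K : ℝ) ≤ K' + H := by exact_mod_cast hKK
  have h4 : (4 * H ^ 2 : ℝ) ≤ y := by exact_mod_cast (le_max_right _ _).trans hy
  rw [div_mul_eq_mul_div, one_mul, div_le_iff₀ (by positivity)]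
  have h5 : (H : ℝ) * K ≤ H * (K' + H) := mul_le_mul_of_nonneg_left h3 (by linarith)
  nlinarith

lemma lam_pm' (n : ℕ) : lam n = 1 ∨ lam n = -1 := by
  unfold lam
  exact neg_one_pow_eq_or ℤ _

/-- **Sign changes in dyadic intervals.** -/
theorem chg_one : ∃ δ : ℝ, 0 < δ ∧ ∃ Y₀ : ℕ, ∀ y, Y₀ ≤ y →
    δ * y ≤ (((Ico y (2 * y)).filter (fun n => lam n ≠ lam (n + 1))).card : ℝ) := by
  obtain ⟨H₀, X₀, h1⟩ := expo_lam (1 / 8) (by norm_num) 2 (by norm_num)
  set H : ℕ := ⌈H₀⌉₊ + 1 with hHd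
  have hH0 : H₀ ≤ H := by
    rw [hHd]; push_cast
    exact (Nat.le_ceil H₀).trans (by linarith)
  refine changes_of lam lam_pm' H (by omega) (max (max X₀ H) 1) fun y hy => ?_
  have hy1 : X₀ ≤ y := ((le_max_left _ _).trans (le_max_left _ _)).trans hy
  have hy2 : H ≤ y := ((le_max_right _ _).trans (le_max_left _ _)).trans hy
  have hy3 : 1 ≤ y := (le_max_right _ _).trans hy
  obtain ⟨θ, hθ, hd⟩ := dual lam y H (3 * y + 1) hy3 hy2 (by omega)
  rw [hd]
  have h2 := h1 y hy1 H hH0 (by exact_mod_cast hy2) (fun n => ((wt θ y H n : ℝ) : ℂ)) (by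
      intro n
      rw [Complex.norm_real, Real.norm_eq_abs]
      exact wt_bd hθ y H n) (by
      intro n m
      rw [← Complex.ofReal_sub, Complex.norm_real, Real.norm_eq_abs]
      exact wt_lip hθ y H n m) (by
      intro n hn
      rw [wt_supp hy2 (by omega)]
      simp) 0
  have h3 : ∑ n ∈ Icc 1 (3 * y), (lam n : ℂ) * ee ((n : ℝ) * 0) * ((wt θ y H n : ℝ) : ℂ) =
      ((∑ n ∈ range (3 * y + 1), (lam n : ℝ) * wt θ y H n : ℝ) : ℂ) := by
    push_cast
    rw [range_eq_Ico, sum_eq_sum_Ico_succ_bot (by omega)]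
    have e0 : wt θ y H 0 = 0 := by
      unfold wt
      refine sum_eq_zero fun x hx => ?_
      rw [mem_Ico] at hx
      rw [if_neg (by omega)]
    rw [e0]
    simp only [Complex.ofReal_zero, mul_zero, zero_add]
    have e1 : Ico 1 (3 * y + 1) = Icc 1 (3 * y) := by
      ext n; rw [mem_Ico, mem_Icc]; omega
    rw [e1]
    refine sum_congr rfl fun n _ => ?_
    rw [ee_zero, mul_one]
  rw [h3, Complex.norm_real, Real.norm_eq_abs] at h2
  refine (le_abs_self _).trans (h2.trans ?_)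
  have : (0 : ℝ) ≤ H * y := by positivity
  linarith

/-! ### the character modulo 4 -/

/-- the nontrivial character modulo 4 -/
def ch4 (n : ℕ) : ℤ := if n % 4 = 1 then 1 else if n % 4 = 3 then -1 else 0

lemma ee_four (n : ℕ) : ee ((n : ℝ) * (1 / 4)) = Complex.I ^ n := by
  unfold ee
  have h1 : 2 * (Real.pi : ℂ) * Complex.I * (((n : ℝ) * (1 / 4) : ℝ) : ℂ) =
      (n : ℂ) * ((Real.pi : ℂ) / 2 * Complex.I) := by
    push_cast
    ring
  rw [h1, Complex.exp_nat_mul, Complex.exp_mul_I, Complex.cos_pi_div_two, Complex.sin_pi_div_two,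
    zero_add, one_mul]

lemma ee_four' (n : ℕ) : ee ((n : ℝ) * (-(1 / 4))) = (-Complex.I) ^ n := by
  unfold ee
  have h1 : 2 * (Real.pi : ℂ) * Complex.I * (((n : ℝ) * (-(1 / 4)) : ℝ) : ℂ) =
      (n : ℂ) * (-((Real.pi : ℂ) / 2) * Complex.I) := by
    push_cast
    ring
  rw [h1, Complex.exp_nat_mul, Complex.exp_mul_I, Complex.cos_neg, Complex.sin_neg,
    Complex.cos_pi_div_two, Complex.sin_pi_div_two, zero_add, neg_one_mul]

lemma ch4_eq (n : ℕ) : ((ch4 n : ℤ) : ℂ) =
    (ee ((n : ℝ) * (1 / 4)) - ee ((n : ℝ) * (-(1 / 4)))) / (2 * Complex.I) := by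
  rw [ee_four, ee_four', eq_div_iff (by simp [Complex.I_ne_zero])]
  have hI4 : Complex.I ^ 4 = 1 := Complex.I_pow_four
  have hnI4 : (-Complex.I) ^ 4 = 1 := by rw [Even.neg_pow (by decide), hI4]
  have e1 : Complex.I ^ n = Complex.I ^ (n % 4) := by
    conv_lhs => rw [← Nat.div_add_mod n 4, pow_add, pow_mul, hI4, one_pow, one_mul]
  have e2 : (-Complex.I) ^ n = (-Complex.I) ^ (n % 4) := by
    conv_lhs => rw [← Nat.div_add_mod n 4, pow_add, pow_mul, hnI4, one_pow, one_mul]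
  rw [e1, e2]
  unfold ch4
  have h4 : n % 4 < 4 := Nat.mod_lt _ (by norm_num)
  have hI2 : Complex.I ^ 2 = -1 := Complex.I_sq
  interval_cases n % 4
  · norm_num
  · norm_num; ring
  · norm_num
  · norm_num
    rw [show (-Complex.I) ^ 3 = Complex.I by
      rw [show (-Complex.I) ^ 3 = - (Complex.I ^ 2 * Complex.I) by ring, hI2]; ring]
    ring

/-- the twisted function on the odd numbers -/
def gg (m : ℕ) : ℤ := lam (2 * m + 1) * (-1) ^ m

lemma gg_pm (n : ℕ) : gg n = 1 ∨ gg n = -1 := by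
  unfold gg
  rcases lam_pm' (2 * n + 1) with h | h <;> rcases neg_one_pow_eq_or ℤ n with h' | h' <;>
    rw [h, h'] <;> simp

lemma ch4_odd (m : ℕ) : ch4 (2 * m + 1) = (-1) ^ m := by
  unfold ch4
  rcases Nat.even_or_odd m with h | h
  · rw [h.neg_one_pow]
    obtain ⟨k, rfl⟩ := h
    rw [if_pos (by omega)]
  · rw [h.neg_one_pow]
    obtain ⟨k, rfl⟩ := h
    rw [if_neg (by omega), if_pos (by omega)]

lemma ch4_even {n : ℕ} (h : n % 2 = 0) : ch4 n = 0 := by
  unfold ch4
  rw [if_neg (by omega), if_neg (by omega)]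

lemma range_two (F : ℕ → ℝ) (N : ℕ) :
    ∑ n ∈ range (2 * N), F n = ∑ m ∈ range N, (F (2 * m) + F (2 * m + 1)) := by
  induction N with
  | zero => simp
  | succ N ih =>
    rw [show 2 * (N + 1) = 2 * N + 1 + 1 by ring, sum_range_succ, sum_range_succ, ih, sum_range_succ]
    ring

/-- **Equal values at neighbouring odd numbers in dyadic intervals.** -/
theorem chg_two : ∃ δ : ℝ, 0 < δ ∧ ∃ Y₀ : ℕ, ∀ y, Y₀ ≤ y →
    δ * y ≤ (((Ico y (2 * y)).filter (fun m => lam (2 * m + 1) = lam (2 * m + 3))).card : ℝ) := by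
  obtain ⟨H₀, X₀, h1⟩ := expo_lam (1 / 8) (by norm_num) 2 (by norm_num)
  set H : ℕ := ⌈H₀⌉₊ + 1 with hHd
  have hH0 : H₀ ≤ H := by
    rw [hHd]; push_cast
    exact (Nat.le_ceil H₀).trans (by linarith)
  have key := changes_of gg gg_pm H (by omega) (max (max X₀ H) 1) fun y hy => by
    have hy1 : X₀ ≤ y := ((le_max_left _ _).trans (le_max_left _ _)).trans hy
    have hy2 : H ≤ y := ((le_max_right _ _).trans (le_max_left _ _)).trans hy
    have hy3 : 1 ≤ y := (le_max_right _ _).trans hy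
    obtain ⟨θ, hθ, hd⟩ := dual gg y H (3 * y) hy3 hy2 le_rfl
    rw [hd]
    have h2 : ∀ α : ℝ, ‖∑ n ∈ Icc 1 (3 * (2 * y)), (lam n : ℂ) * ee ((n : ℝ) * α) *
        ((wt θ y H (n / 2) : ℝ) : ℂ)‖ ≤ 1 / 8 * H * ((2 * y : ℕ) : ℝ) :=
      h1 (2 * y) (by omega) H hH0 (by
        have : (H : ℝ) ≤ y := by exact_mod_cast hy2
        push_cast
        have h0 : (0 : ℝ) ≤ y := Nat.cast_nonneg y
        linarith) (fun n => ((wt θ y H (n / 2) : ℝ) : ℂ)) (by
        intro n
        rw [Complex.norm_real, Real.norm_eq_abs]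
        exact wt_bd hθ y H _) (by
        intro n m
        rw [← Complex.ofReal_sub, Complex.norm_real, Real.norm_eq_abs]
        refine (wt_lip hθ y H _ _).trans ?_
        apply mul_le_mul_of_nonneg_left _ (by norm_num)
        rcases le_total m n with h | h
        · have h3 : m / 2 ≤ n / 2 := Nat.div_le_div_right h
          have h4 : n / 2 + m ≤ n + m / 2 := by omega
          have h5 : ((m / 2 : ℕ) : ℝ) ≤ ((n / 2 : ℕ) : ℝ) := by exact_mod_cast h3
          have h6 : ((n / 2 : ℕ) : ℝ) + m ≤ n + ((m / 2 : ℕ) : ℝ) := by exact_mod_cast h4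
          have h7 : (m : ℝ) ≤ n := by exact_mod_cast h
          rw [abs_of_nonneg (by linarith), abs_of_nonneg (by linarith)]
          linarith
        · have h3 : n / 2 ≤ m / 2 := Nat.div_le_div_right h
          have h4 : m / 2 + n ≤ m + n / 2 := by omega
          have h5 : ((n / 2 : ℕ) : ℝ) ≤ ((m / 2 : ℕ) : ℝ) := by exact_mod_cast h3
          have h6 : ((m / 2 : ℕ) : ℝ) + n ≤ m + ((n / 2 : ℕ) : ℝ) := by exact_mod_cast h4
          have h7 : (n : ℝ) ≤ m := by exact_mod_cast h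
          rw [abs_of_nonpos (by linarith), abs_of_nonpos (by linarith)]
          linarith) (by
        intro n hn
        rw [wt_supp hy2 (by omega)]
        simp)
    have h3 : ((∑ n ∈ range (3 * y), (gg n : ℝ) * wt θ y H n : ℝ) : ℂ) =
        (∑ n ∈ Icc 1 (3 * (2 * y)), (lam n : ℂ) * ee ((n : ℝ) * (1 / 4)) * ((wt θ y H (n / 2) : ℝ) : ℂ) -
          ∑ n ∈ Icc 1 (3 * (2 * y)), (lam n : ℂ) * ee ((n : ℝ) * (-(1 / 4))) * ((wt θ y H (n / 2) : ℝ) : ℂ)) /
          (2 * Complex.I) := by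
      rw [← sum_sub_distrib, sum_div]
      have e1 : ∀ n ∈ Icc 1 (3 * (2 * y)), ((lam n : ℂ) * ee ((n : ℝ) * (1 / 4)) * ((wt θ y H (n / 2) : ℝ) : ℂ) -
          (lam n : ℂ) * ee ((n : ℝ) * (-(1 / 4))) * ((wt θ y H (n / 2) : ℝ) : ℂ)) / (2 * Complex.I) =
          (((lam n : ℝ) * (ch4 n : ℝ) * wt θ y H (n / 2) : ℝ) : ℂ) := by
        intro n _
        push_cast
        rw [ch4_eq]
        ring
      rw [sum_congr rfl e1, ← Complex.ofReal_sum]
      congr 1
      have e2 : ∑ n ∈ range (2 * (3 * y)), (lam n : ℝ) * (ch4 n : ℝ) * wt θ y H (n / 2) =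
          ∑ m ∈ range (3 * y), (gg m : ℝ) * wt θ y H m := by
        rw [range_two]
        refine sum_congr rfl fun m _ => ?_
        rw [ch4_even (by omega), ch4_odd, show (2 * m + 1) / 2 = m by omega]
        unfold gg
        push_cast
        ring
      rw [← e2]
      have e3 : Icc 1 (3 * (2 * y)) = Ico 1 (2 * (3 * y) + 1) := by
        ext n; rw [mem_Ico, mem_Icc]; omega
      rw [e3, sum_Ico_succ_top (by omega), range_eq_Ico, sum_eq_sum_Ico_succ_bot (by omega)]
      have e4 : ch4 (2 * (3 * y)) = 0 := ch4_even (by omega)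
      have e5 : ch4 0 = 0 := by decide
      rw [e4, e5]
      simp
    have h4 : |∑ n ∈ range (3 * y), (gg n : ℝ) * wt θ y H n| ≤ H * y / 4 := by
      rw [← Real.norm_eq_abs, ← Complex.norm_real, h3, norm_div]
      have e1 : ‖2 * Complex.I‖ = 2 := by simp
      rw [e1, div_le_iff₀ (by norm_num)]
      refine (norm_sub_le _ _).trans ((add_le_add (h2 (1 / 4)) (h2 (-(1 / 4)))).trans ?_)
      push_cast
      linarith
    exact (le_abs_self _).trans h4
  obtain ⟨δ, hδ, Y₀, h⟩ := key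
  refine ⟨δ, hδ, Y₀, fun y hy => (h y hy).trans ?_⟩
  apply le_of_eq
  congr 2
  ext m
  rw [mem_filter, mem_filter]
  refine and_congr_right fun _ => ?_
  unfold gg
  rw [show 2 * (m + 1) + 1 = 2 * m + 3 by ring, pow_succ]
  rcases lam_pm' (2 * m + 1) with h1 | h1 <;> rcases lam_pm' (2 * m + 3) with h2 | h2 <;>
    rcases neg_one_pow_eq_or ℤ m with h3 | h3 <;> rw [h1, h2, h3] <;> simp

end Pool.Agent.Y955.CH
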