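import Pool.Agent.Y955.CH.Two

/-!
# The partial sums of `λ(n)λ(n+h)` at every scale, odd shifts
-/

set_option autoImplicit false

namespace Pool.Agent.Y955.CH

open Finset Filter
open Pool.Agent.TH833.BL (S)
open Pool.Agent.H376R2.MR (lam dec_lam_mul)
open Pool.Agent.Y326 (ps)

/-- `λ(n)λ(n+h)` -/
noncomputable def sh (h n : ℕ) : ℝ := (lam n : ℝ) * lam (n + h)

lemma sh_ps (h : ℕ) : ps lam h = sh h := by
  funext n
  rfl

lemma sh_pm (h n : ℕ) : sh h n = 1 ∨ sh h n = -1 := by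
  unfold sh
  rcases lamr n with h1 | h1 <;> rcases lamr (n + h) with h2 | h2 <;> rw [h1, h2] <;> norm_num

lemma sh_le (h n : ℕ) : sh h n ≤ 1 := by
  rcases sh_pm h n with h1 | h1 <;> rw [h1]; norm_num

lemma le_sh (h n : ℕ) : -1 ≤ sh h n := by
  rcases sh_pm h n with h1 | h1 <;> rw [h1]; norm_num

lemma sh_abs (h n : ℕ) : |sh h n| ≤ 1 := abs_le.2 ⟨le_sh h n, sh_le h n⟩

lemma sh_double (h : ℕ) {m : ℕ} (hm : m ≠ 0) : sh (2 * h) (2 * m) = sh h m := by
  have h1 := lam_double hm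
  have h2 := lam_double (m := m + h) (by omega)
  unfold sh
  rw [show 2 * m + 2 * h = 2 * (m + h) by ring, h1, h2]
  ring

/-- complete multiplicativity, from the arithmetic function -/
lemma lam_mul' {a b : ℕ} (ha : a ≠ 0) (hb : b ≠ 0) : (lam (a * b) : ℝ) = lam a * lam b := by
  have h : lam (a * b) = lam a * lam b := by
    unfold lam
    rw [ArithmeticFunction.cardFactors_mul ha hb, pow_add]
  rw [h]
  push_cast
  ring

lemma lamr_sq (n : ℕ) : (lam n : ℝ) * lam n = 1 := by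
  rcases lamr n with h | h <;> rw [h] <;> norm_num

/-- shifting a sum -/
lemma shift_sum (F : ℕ → ℝ) (c : ℝ) (a b : ℕ) (hab : a ≤ b) (hF : ∀ n, a ≤ n → |F n| ≤ c) (k : ℕ) :
    |∑ m ∈ Ico a b, F (m + k) - ∑ m ∈ Ico a b, F m| ≤ 2 * k * c := by
  induction k with
  | zero => simp
  | succ k ih =>
    have h1 : ∑ m ∈ Ico a b, F (m + (k + 1)) = ∑ m ∈ Ico a b, F (m + k) + (F (b + k) - F (a + k)) := by
      have h2 : ∀ b, a ≤ b → ∑ m ∈ Ico a b, F (m + (k + 1)) =
          ∑ m ∈ Ico a b, F (m + k) + (F (b + k) - F (a + k)) := by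
        intro b hb
        induction b, hb using Nat.le_induction with
        | base => simp
        | succ b hb ih2 =>
          rw [sum_Ico_succ_top hb, sum_Ico_succ_top hb, ih2, show b + 1 + k = b + (k + 1) by ring]
          ring
      exact h2 b hab
    rw [h1]
    have h3 := hF (b + k) (by omega)
    have h4 := hF (a + k) (by omega)
    rw [abs_le] at ih h3 h4 ⊢
    push_cast
    constructor <;> linarith [ih.1, ih.2, h3.1, h3.2, h4.1, h4.2]

/-- a positive proportion in dyadic intervals is inherited from a progression -/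
lemma chg_scale (p P : ℕ → Prop) [DecidablePred p] [DecidablePred P] (q l : ℕ) (hl : l < q)
    (hP : ∀ j, 1 ≤ j → p j → P (q * j + l)) (δ : ℝ) (hδ : 0 < δ) (Y₀ : ℕ)
    (h : ∀ y, Y₀ ≤ y → δ * y ≤ (((Ico y (2 * y)).filter p).card : ℝ)) :
    ∃ δ' : ℝ, 0 < δ' ∧ ∃ Y₁ : ℕ, ∀ a, Y₁ ≤ a → δ' * a ≤ (((Ico a (2 * a)).filter P).card : ℝ) := by
  classical
  have hq : 0 < q := by omega
  have hq0 : (0 : ℝ) < q := by exact_mod_cast hq
  obtain ⟨N, hN⟩ := exists_nat_ge (6 * q / δ)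
  refine ⟨δ / (2 * q), by positivity, max N (q * Y₀), fun a ha => ?_⟩
  have ha1 : N ≤ a := (le_max_left _ _).trans ha
  have ha2 : q * Y₀ ≤ a := (le_max_right _ _).trans ha
  have hy : Y₀ ≤ a / q := by
    rw [Nat.le_div_iff_mul_le hq, mul_comm]
    exact ha2
  set y : ℕ := a / q + 1 with hyd
  have h1 := h y (by omega)
  have hlt : a < q * y := by
    rw [hyd]
    exact Nat.lt_mul_div_succ a hq
  have hle : q * (a / q) ≤ a := Nat.mul_div_le a q
  have h2 : (Ico y (2 * y)).filter p ⊆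
      (((Ico a (2 * a)).filter P).image (fun m => (m - l) / q)) ∪ (Ico (2 * y - 3) (2 * y)) := by
    intro j hj
    rw [mem_filter, mem_Ico] at hj
    rw [mem_union]
    rcases lt_or_ge j (2 * y - 3) with h3 | h3
    · left
      rw [mem_image]
      refine ⟨q * j + l, ?_, ?_⟩
      · rw [mem_filter, mem_Ico]
        refine ⟨⟨?_, ?_⟩, hP j (by omega) hj.2⟩
        · have : q * y ≤ q * j := Nat.mul_le_mul_left q hj.1.1
          omega
        · have h4 : j + 1 ≤ 2 * (a / q) := by omega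
          have h5 : q * (j + 1) ≤ q * (2 * (a / q)) := Nat.mul_le_mul_left q h4
          have h6 : q * (j + 1) = q * j + q := by ring
          have h7 : q * (2 * (a / q)) = 2 * (q * (a / q)) := by ring
          omega
      · rw [Nat.add_sub_cancel, Nat.mul_div_cancel_left _ hq]
    · right
      rw [mem_Ico]
      exact ⟨h3, hj.1.2⟩
  have h3 : ((Ico y (2 * y)).filter p).card ≤ ((Ico a (2 * a)).filter P).card + 3 := by
    refine (card_le_card h2).trans ((card_union_le _ _).trans ?_)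
    refine add_le_add card_image_le ?_
    rw [Nat.card_Ico]
    omega
  have h4 : (((Ico y (2 * y)).filter p).card : ℝ) ≤ (((Ico a (2 * a)).filter P).card : ℝ) + 3 := by
    exact_mod_cast h3
  have h5 : (a : ℝ) ≤ q * y := by exact_mod_cast hlt.le
  have h6 : 6 * q / δ ≤ (a : ℝ) := hN.trans (by exact_mod_cast ha1)
  rw [div_le_iff₀ hδ] at h6
  have h7 : δ * y * (2 * q) ≤ ((((Ico a (2 * a)).filter P).card : ℝ) + 3) * (2 * q) :=
    mul_le_mul_of_nonneg_right (h1.trans h4) (by linarith)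
  have h8 : δ * (a : ℝ) ≤ δ * (q * y) := mul_le_mul_of_nonneg_left h5 hδ.le
  rw [div_mul_eq_mul_div, div_le_iff₀ (by linarith)]
  nlinarith

/-- sign changes at distance `h` -/
lemma chg_h (h : ℕ) (hh : 1 ≤ h) : ∃ δ : ℝ, 0 < δ ∧ ∃ Y₀ : ℕ, ∀ y, Y₀ ≤ y →
    δ * y ≤ (((Ico y (2 * y)).filter (fun n => lam n ≠ lam (n + h))).card : ℝ) := by
  obtain ⟨δ, hδ, Y₀, hc⟩ := chg_one
  refine chg_scale (fun n => lam n ≠ lam (n + 1)) (fun n => lam n ≠ lam (n + h)) h 0 (by omega) ?_ δ hδ Y₀ hc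
  intro j hj hne heq
  apply hne
  have h1 : (lam (h * j) : ℝ) = lam h * lam j := lam_mul' (by omega) (by omega)
  have h2 : (lam (h * (j + 1)) : ℝ) = lam h * lam (j + 1) := lam_mul' (by omega) (by omega)
  have h3 : (lam (h * j + 0) : ℝ) = lam (h * j + 0 + h) := by rw [heq]
  rw [show h * j + 0 + h = h * (j + 1) by ring, add_zero, h1, h2] at h3
  have h4 : (lam j : ℝ) = lam (j + 1) := by
    have h5 := lamr_sq h
    calc (lam j : ℝ) = (lam h * lam h) * lam j := by rw [h5, one_mul]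
      _ = lam h * (lam h * lam j) := by ring
      _ = lam h * (lam h * lam (j + 1)) := by rw [h3]
      _ = (lam h * lam h) * lam (j + 1) := by ring
      _ = lam (j + 1) := by rw [h5, one_mul]
  exact_mod_cast h4

/-- the defect of the triple `2m, 2m+h, 2m+2h` -/
noncomputable def Dh (h m : ℕ) : ℝ := sh h (2 * m) + sh h (2 * m + h) + sh h m + 1

lemma Dh_nonneg (h : ℕ) {m : ℕ} (hm : m ≠ 0) : 0 ≤ Dh h m := by
  have h0 := triple (lamr (2 * m)) (lamr (2 * m + h)) (lamr (2 * m + 2 * h))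
  have e : sh h m = (lam (2 * m) : ℝ) * lam (2 * m + 2 * h) := by
    rw [← sh_double h hm]
    rfl
  unfold Dh
  rw [e]
  unfold sh
  rw [show 2 * m + h + h = 2 * m + 2 * h by ring]
  exact h0

/-- one step of the recursion -/
lemma step_nat' (k : ℕ) {a : ℕ} : ∑ m ∈ Ico a (2 * a), (Dh (2 * k + 1) m - 1) - 2 * k ≤
    ∑ n ∈ Ico a (4 * a), sh (2 * k + 1) n := by
  rw [← sum_Ico_consecutive (sh (2 * k + 1)) (show a ≤ 2 * a by omega) (show 2 * a ≤ 4 * a by omega)]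
  have h := Ico_two (sh (2 * k + 1)) a (2 * a) (by omega)
  rw [show 2 * (2 * a) = 4 * a by ring] at h
  rw [h, ← sum_add_distrib]
  have h1 := shift_sum (fun m => sh (2 * k + 1) (2 * m + 1)) 1 a (2 * a) (by omega) (fun n _ => sh_abs _ _) k
  have h2 := (abs_le.1 h1).2
  have e1 : ∑ m ∈ Ico a (2 * a), (Dh (2 * k + 1) m - 1) =
      ∑ m ∈ Ico a (2 * a), (sh (2 * k + 1) m + (sh (2 * k + 1) (2 * m) + sh (2 * k + 1) (2 * m + 1))) +
        (∑ m ∈ Ico a (2 * a), sh (2 * k + 1) (2 * (m + k) + 1) -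
          ∑ m ∈ Ico a (2 * a), sh (2 * k + 1) (2 * m + 1)) := by
    rw [← sum_sub_distrib, ← sum_add_distrib]
    refine sum_congr rfl fun m _ => ?_
    unfold Dh
    rw [show 2 * (m + k) + 1 = 2 * m + (2 * k + 1) by ring]
    ring
  rw [e1]
  linarith

/-- one step of the recursion, with logarithmic weights -/
lemma step_log' (k : ℕ) {a : ℕ} (ha : 1 ≤ a) : ∑ n ∈ Ico a (4 * a), sh (2 * k + 1) n / n ≤
    (∑ m ∈ Ico a (2 * a), Dh (2 * k + 1) m) / (2 * a) -
      (((Ico a (2 * a)).filter (fun n => lam n ≠ lam (n + (2 * k + 1)))).card : ℝ) / (2 * a)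
      + (2 * k + 1) / a := by
  classical
  set h : ℕ := 2 * k + 1 with hh
  have hk : (h : ℝ) = 2 * k + 1 := by rw [hh]; push_cast; ring
  have hk0 : (0 : ℝ) ≤ k := Nat.cast_nonneg k
  have ha0 : (0 : ℝ) < a := by exact_mod_cast ha
  rw [← sum_Ico_consecutive (fun n => sh h n / (n : ℝ)) (show a ≤ 2 * a by omega) (show 2 * a ≤ 4 * a by omega)]
  have h0 := Ico_two (fun n => sh h n / (n : ℝ)) a (2 * a) (by omega)
  rw [show 2 * (2 * a) = 4 * a by ring] at h0
  rw [h0, ← sum_add_distrib]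
  have key : ∀ m ∈ Ico a (2 * a), sh h m / (m : ℝ) + (sh h (2 * m) / ((2 * m : ℕ) : ℝ) +
      sh h (2 * (m + k) + 1) / ((2 * (m + k) + 1 : ℕ) : ℝ)) ≤
      Dh h m / (2 * a) - (if lam m ≠ lam (m + h) then 1 / (2 * (a : ℝ)) else 0) + (2 * k + 1) / (4 * a ^ 2) := by
    intro m hm
    rw [mem_Ico] at hm
    have hm0 : (0 : ℝ) < m := by exact_mod_cast (by omega : 0 < m)
    have ham : (a : ℝ) ≤ m := by exact_mod_cast hm.1
    have hma : (m : ℝ) ≤ 2 * a := by exact_mod_cast hm.2.le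
    have hD := Dh_nonneg h (m := m) (by omega)
    have e1 : sh h m / (m : ℝ) + (sh h (2 * m) / ((2 * m : ℕ) : ℝ) +
        sh h (2 * (m + k) + 1) / ((2 * (m + k) + 1 : ℕ) : ℝ)) =
        Dh h m / (2 * m) - (1 - sh h m) / (2 * m) -
          sh h (2 * m + h) * ((2 * k + 1) / (2 * m * (2 * m + (2 * k + 1)))) := by
      rw [show 2 * (m + k) + 1 = 2 * m + h by rw [hh]; ring]
      unfold Dh
      push_cast
      rw [hk]
      field_simp
      ring
    rw [e1]
    have h1 : Dh h m / (2 * m) ≤ Dh h m / (2 * a) :=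
      div_le_div_of_nonneg_left hD (by positivity) (by linarith)
    have h2 : - (sh h (2 * m + h) * ((2 * k + 1) / (2 * m * (2 * m + (2 * k + 1))))) ≤
        (2 * k + 1) / (4 * a ^ 2) := by
      have h3 : (0 : ℝ) ≤ (2 * k + 1) / (2 * m * (2 * m + (2 * k + 1))) := by positivity
      have h4 : (2 * (k : ℝ) + 1) / (2 * (m : ℝ) * (2 * m + (2 * k + 1))) ≤ (2 * k + 1) / (4 * a ^ 2) := by
        apply div_le_div_of_nonneg_left (by positivity) (by positivity)
        nlinarith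
      have h5 := le_sh h (2 * m + h)
      nlinarith
    have h3 : (if lam m ≠ lam (m + h) then 1 / (2 * (a : ℝ)) else 0) ≤ (1 - sh h m) / (2 * m) := by
      split_ifs with h4
      · have e : sh h m = -1 := by
          unfold sh
          rcases lam_pm' m with h5 | h5 <;> rcases lam_pm' (m + h) with h6 | h6 <;> rw [h5, h6] at h4 ⊢ <;>
            first | exact absurd rfl h4 | norm_num
        rw [e, div_le_div_iff₀ (by positivity) (by positivity)]
        linarith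
      · have := sh_le h m
        apply div_nonneg (by linarith) (by positivity)
    linarith
  have hsh := shift_sum (fun m => sh h (2 * m + 1) / ((2 * m + 1 : ℕ) : ℝ)) (1 / (2 * a)) a (2 * a) (by omega)
    (fun n hn => by
      have hn0 : (a : ℝ) ≤ n := by exact_mod_cast hn
      rw [abs_div, Nat.abs_cast]
      push_cast
      have := sh_abs h (2 * n + 1)
      have h5 : (0 : ℝ) < 2 * n + 1 := by linarith
      rw [div_le_div_iff₀ h5 (by linarith)]
      nlinarith) k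
  have hsh' := (abs_le.1 hsh).1
  have h5 := sum_le_sum key
  rw [sum_add_distrib, sum_add_distrib] at h5
  rw [sum_add_distrib, sum_add_distrib]
  have h6 : ∑ m ∈ Ico a (2 * a), (Dh h m / (2 * a) - (if lam m ≠ lam (m + h) then 1 / (2 * (a : ℝ)) else 0) +
      (2 * (k : ℝ) + 1) / (4 * a ^ 2)) = (∑ m ∈ Ico a (2 * a), Dh h m) / (2 * a) -
      (((Ico a (2 * a)).filter (fun n => lam n ≠ lam (n + h))).card : ℝ) / (2 * a) + (2 * k + 1) / (4 * a) := by
    rw [sum_add_distrib, sum_sub_distrib, ← sum_div, sum_const, Nat.card_Ico, ← sum_filter, sum_const,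
      nsmul_eq_mul, nsmul_eq_mul]
    have e2 : ((2 * a - a : ℕ) : ℝ) = a := by
      rw [show 2 * a - a = a by omega]
    rw [e2]
    field_simp
  rw [h6] at h5
  have h7 : 2 * (k : ℝ) * (1 / (2 * a)) = k / a := by field_simp
  rw [h7] at hsh'
  have h8 : (2 * (k : ℝ) + 1) / a = (2 * k + 1) / (4 * a) + k / a + (2 * k + 3) / (4 * a) := by
    field_simp
    ring
  have h9 : (0 : ℝ) ≤ (2 * k + 3) / (4 * a) := by positivity
  rw [h8]
  linarith

/-- the lower bound along the multiples of `4 ^ J` -/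
theorem odd_core (k : ℕ) : ∃ J : ℕ, ∃ Y : ℕ, ∀ y : ℕ, Y ≤ y →
    -(1 / 3) * ((4 : ℝ) ^ J * y) + y / 6 ≤ ∑ n ∈ Icc 1 (4 ^ J * y), sh (2 * k + 1) n := by
  classical
  have hk0 : (0 : ℝ) ≤ k := Nat.cast_nonneg k
  obtain ⟨δ, hδ, Y₀, hchg⟩ := chg_h (2 * k + 1) (by omega)
  obtain ⟨W₀, hW⟩ := tao_window (f := lam) Pool.Agent.TH823.MRS.lam_bdd
    (fun p m hp hpm => Pool.Agent.TH823.MRS.lam_flip p m hp hpm) Pool.Agent.TH823.MRS.expo_lam (2 * k + 1)
    (by omega) (δ / 8) (by positivity)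
  obtain ⟨J₀, hJ₀⟩ := exists_nat_ge (16 / δ)
  set J : ℕ := max J₀ W₀ with hJ
  have hJW : W₀ ≤ 4 ^ J := by
    have h1 : J < 4 ^ J := Nat.lt_pow_self (by norm_num)
    have h2 : W₀ ≤ J := le_max_right _ _
    omega
  have hJδ : 16 ≤ J * δ := by
    have h1 : (J₀ : ℝ) ≤ J := by exact_mod_cast le_max_left _ _
    have h2 := hJ₀.trans h1
    rw [div_le_iff₀ hδ] at h2
    exact h2
  obtain ⟨Y₁, hY₁⟩ := exists_nat_ge (8 * (2 * k + 1) / δ + 6 + (1 + 2 * k * J))
  refine ⟨J, max Y₀ (max Y₁ 6), fun y hy => ?_⟩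
  have hy0 : Y₀ ≤ y := (le_max_left _ _).trans hy
  have hy1 : Y₁ ≤ y := ((le_max_left _ _).trans (le_max_right _ _)).trans hy
  have hy2 : 6 ≤ y := ((le_max_right _ _).trans (le_max_right _ _)).trans hy
  have hy3 : (6 : ℝ) ≤ y := by exact_mod_cast hy2
  have hy4 : 8 * (2 * k + 1) / δ + 6 + (1 + 2 * k * J) ≤ (y : ℝ) := hY₁.trans (by exact_mod_cast hy1)
  have hpos1 : (0 : ℝ) ≤ 8 * (2 * k + 1) / δ := by positivity
  have hpos2 : (0 : ℝ) ≤ 2 * k * J := by positivity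
  have hyδ : 8 * (2 * k + 1) ≤ y * δ := by
    have h1 : 8 * (2 * k + 1) / δ ≤ (y : ℝ) := by linarith
    rwa [div_le_iff₀ hδ] at h1
  by_contra hcon
  push Not at hcon
  -- the blocks
  have hblk : ∀ (F : ℕ → ℝ) (j : ℕ), ∑ n ∈ Ico y (4 ^ j * y), F n =
      ∑ i ∈ range j, ∑ n ∈ Ico (4 ^ i * y) (4 * (4 ^ i * y)), F n := by
    intro F j
    induction j with
    | zero => simp
    | succ j ih =>
      rw [sum_range_succ, ← ih, show 4 * (4 ^ j * y) = 4 ^ (j + 1) * y by ring]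
      rw [sum_Ico_consecutive F]
      · have : 1 ≤ 4 ^ j := Nat.one_le_pow _ _ (by norm_num)
        nlinarith
      · rw [pow_succ]
        have : 0 ≤ 4 ^ j * y := Nat.zero_le _
        nlinarith
  set DD : ℝ := ∑ i ∈ range J, ∑ m ∈ Ico (4 ^ i * y) (2 * (4 ^ i * y)), Dh (2 * k + 1) m with hDD
  have hgeo : ∀ j : ℕ, ∑ i ∈ range j, ((4 : ℝ) ^ i * y) = ((4 : ℝ) ^ j * y - y) / 3 := by
    intro j
    induction j with
    | zero => simp
    | succ j ih => rw [sum_range_succ, ih, pow_succ]; ring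
  have h1 : DD - ((4 : ℝ) ^ J * y - y) / 3 - 2 * k * J ≤ ∑ n ∈ Ico y (4 ^ J * y), sh (2 * k + 1) n := by
    rw [hblk (sh (2 * k + 1)) J, hDD, ← hgeo J, ← sum_sub_distrib]
    have e1 : ∑ i ∈ range J, (∑ m ∈ Ico (4 ^ i * y) (2 * (4 ^ i * y)), Dh (2 * k + 1) m - (4 : ℝ) ^ i * y) -
        2 * k * J = ∑ i ∈ range J,
          (∑ m ∈ Ico (4 ^ i * y) (2 * (4 ^ i * y)), (Dh (2 * k + 1) m - 1) - 2 * k) := by
      rw [sum_sub_distrib (f := fun i => ∑ m ∈ Ico (4 ^ i * y) (2 * (4 ^ i * y)), (Dh (2 * k + 1) m - 1)),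
        sum_const, card_range, nsmul_eq_mul, mul_comm (J : ℝ) (2 * k)]
      congr 1
      refine sum_congr rfl fun i _ => ?_
      rw [sum_sub_distrib, sum_const, Nat.card_Ico, nsmul_eq_mul, mul_one]
      congr 1
      rw [show 2 * (4 ^ i * y) - 4 ^ i * y = 4 ^ i * y by omega]
      push_cast
      ring
    rw [e1]
    exact sum_le_sum fun i _ => step_nat' k
  have hyJ : y ≤ 4 ^ J * y := Nat.le_mul_of_pos_left y (by positivity)
  have h2 : ∑ n ∈ Ico y (4 ^ J * y), sh (2 * k + 1) n ≤ ∑ n ∈ Icc 1 (4 ^ J * y), sh (2 * k + 1) n + y + 1 := by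
    have e1 : Icc 1 (4 ^ J * y) = Ico 1 (4 ^ J * y + 1) := by
      ext n; rw [mem_Ico, mem_Icc]; omega
    rw [e1, sum_Ico_succ_top (by omega), ← sum_Ico_consecutive (sh (2 * k + 1)) (show 1 ≤ y by omega) hyJ]
    have h3 : -((y : ℝ) - 1) ≤ ∑ n ∈ Ico 1 y, sh (2 * k + 1) n := by
      have h4 : ∑ n ∈ Ico 1 y, (-1 : ℝ) ≤ ∑ n ∈ Ico 1 y, sh (2 * k + 1) n := sum_le_sum fun n _ => le_sh _ n
      rw [sum_const, Nat.card_Ico, nsmul_eq_mul, Nat.cast_sub (by omega)] at h4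
      push_cast at h4
      linarith
    have h4 := le_sh (2 * k + 1) (4 ^ J * y)
    linarith
  have hDDle : DD ≤ 2 * y := by linarith
  -- logarithmic sums
  have h3 : ∑ n ∈ Ico y (4 ^ J * y), sh (2 * k + 1) n / n ≤
      DD / (2 * y) - J * (δ / 2) + J * ((2 * k + 1) / y) := by
    rw [hblk (fun n => sh (2 * k + 1) n / n) J, hDD, sum_div]
    have h4 : ∑ i ∈ range J, ∑ n ∈ Ico (4 ^ i * y) (4 * (4 ^ i * y)), sh (2 * k + 1) n / n ≤
        ∑ i ∈ range J, ((∑ m ∈ Ico (4 ^ i * y) (2 * (4 ^ i * y)), Dh (2 * k + 1) m) / (2 * y) - δ / 2 +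
          (2 * k + 1) / y) := by
      refine sum_le_sum fun i _ => ?_
      have h5 : y ≤ 4 ^ i * y := Nat.le_mul_of_pos_left y (by positivity)
      have h6 := step_log' k (a := 4 ^ i * y) (by omega)
      have h7 := hchg (4 ^ i * y) (hy0.trans h5)
      have h8 : (y : ℝ) ≤ ((4 ^ i * y : ℕ) : ℝ) := by exact_mod_cast h5
      have h9 : 0 ≤ ∑ m ∈ Ico (4 ^ i * y) (2 * (4 ^ i * y)), Dh (2 * k + 1) m :=
        sum_nonneg fun m hm => Dh_nonneg _ (by rw [mem_Ico] at hm; omega)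
      have h10 : (∑ m ∈ Ico (4 ^ i * y) (2 * (4 ^ i * y)), Dh (2 * k + 1) m) / (2 * ((4 ^ i * y : ℕ) : ℝ)) ≤
          (∑ m ∈ Ico (4 ^ i * y) (2 * (4 ^ i * y)), Dh (2 * k + 1) m) / (2 * y) :=
        div_le_div_of_nonneg_left h9 (by linarith) (by linarith)
      have h11 : δ / 2 ≤ (((Ico (4 ^ i * y) (2 * (4 ^ i * y))).filter
          (fun n => lam n ≠ lam (n + (2 * k + 1)))).card : ℝ) / (2 * ((4 ^ i * y : ℕ) : ℝ)) := by
        rw [le_div_iff₀ (by linarith)]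
        linarith
      have h12 : (2 * (k : ℝ) + 1) / ((4 ^ i * y : ℕ) : ℝ) ≤ (2 * k + 1) / (y : ℝ) :=
        div_le_div_of_nonneg_left (by positivity) (by linarith) h8
      linarith
    refine h4.trans (le_of_eq ?_)
    rw [sum_add_distrib, sum_sub_distrib, sum_const, sum_const, card_range, nsmul_eq_mul, nsmul_eq_mul]
  have hx : 4 ^ J * y / 4 ^ J = y := Nat.mul_div_cancel_left y (by positivity)
  have h4 := hW (4 ^ J) (4 ^ J * y) hJW (Nat.le_mul_of_pos_right _ (by omega))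
  rw [hx, sh_ps] at h4
  have h5 : S (sh (2 * k + 1)) (4 ^ J * y) - S (sh (2 * k + 1)) y =
      ∑ n ∈ Ico y (4 ^ J * y), sh (2 * k + 1) n / n + sh (2 * k + 1) (4 ^ J * y) / ((4 ^ J * y : ℕ) : ℝ) -
        sh (2 * k + 1) y / y := by
    have hS : ∀ N : ℕ, 1 ≤ N → S (sh (2 * k + 1)) N =
        ∑ n ∈ Ico 1 N, sh (2 * k + 1) n / n + sh (2 * k + 1) N / N := by
      intro N hN
      unfold S
      have e1 : Icc 1 N = Ico 1 (N + 1) := by
        ext n; rw [mem_Ico, mem_Icc]; omega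
      rw [e1, sum_Ico_succ_top hN]
      congr 1
      · exact sum_congr rfl fun n _ => by ring
      · ring
    rw [hS _ (by omega), hS y (by omega), ← sum_Ico_consecutive _ (show 1 ≤ y by omega) hyJ]
    ring
  have h6 : sh (2 * k + 1) (4 ^ J * y) / ((4 ^ J * y : ℕ) : ℝ) ≤ 1 / (y : ℝ) := by
    have h7 : (y : ℝ) ≤ ((4 ^ J * y : ℕ) : ℝ) := by exact_mod_cast hyJ
    have h8 : sh (2 * k + 1) (4 ^ J * y) / ((4 ^ J * y : ℕ) : ℝ) ≤ 1 / ((4 ^ J * y : ℕ) : ℝ) :=
      div_le_div_of_nonneg_right (sh_le _ _) (by positivity)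
    have h9 : 1 / ((4 ^ J * y : ℕ) : ℝ) ≤ 1 / (y : ℝ) := one_div_le_one_div_of_le (by linarith) h7
    linarith
  have h7 : -(1 / (y : ℝ)) ≤ sh (2 * k + 1) y / (y : ℝ) := by
    rw [← neg_div]
    exact div_le_div_of_nonneg_right (le_sh _ _) (by positivity)
  have h8 := (abs_le.1 h4).1
  rw [h5] at h8
  have h9 : Real.log ((4 ^ J : ℕ) : ℝ) ≤ J * (3 / 2) := by
    push_cast
    rw [Real.log_pow]
    apply mul_le_mul_of_nonneg_left _ (Nat.cast_nonneg J)
    have : Real.log 4 = 2 * Real.log 2 := by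
      rw [show (4 : ℝ) = 2 ^ 2 by norm_num, Real.log_pow]; norm_num
    rw [this]
    have := Real.log_two_lt_d9
    linarith
  have h10 : δ / 8 * Real.log ((4 ^ J : ℕ) : ℝ) ≤ δ / 8 * (J * (3 / 2)) :=
    mul_le_mul_of_nonneg_left h9 (by positivity)
  have h11 : 1 / (y : ℝ) ≤ 1 / 6 := one_div_le_one_div_of_le (by norm_num) hy3
  have h12 : DD / (2 * y) ≤ 1 := by
    rw [div_le_iff₀ (by linarith)]
    linarith
  have h13 : (J : ℝ) * ((2 * k + 1) / y) ≤ J * (δ / 8) := by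
    apply mul_le_mul_of_nonneg_left _ (Nat.cast_nonneg J)
    rw [div_le_iff₀ (by linarith)]
    linarith
  nlinarith

/-- **Lower bound at every scale, odd shifts.** -/
theorem odd_lower (k : ℕ) : ∃ δ : ℝ, 0 < δ ∧ ∃ x₀ : ℕ, ∀ x : ℕ, x₀ ≤ x →
    -(1 / 3 - δ) * x ≤ ∑ n ∈ Icc 1 x, sh (2 * k + 1) n := by
  obtain ⟨J, Y, h⟩ := odd_core k
  refine of_multiples (fun N => ∑ n ∈ Icc 1 N, sh (2 * k + 1) n) (sum_lip _ (sh_abs _)) (4 ^ J)
    (Nat.one_le_pow _ _ (by norm_num)) (1 / 3) (1 / 6) (by norm_num) (by norm_num) Y fun y hy => ?_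
  have := h y hy
  push_cast
  linarith

/-- **Upper bound at every scale, all shifts.** -/
theorem all_upper (h : ℕ) (hh : 1 ≤ h) : ∃ δ : ℝ, 0 < δ ∧ ∃ x₀ : ℕ, ∀ x : ℕ, x₀ ≤ x →
    ∑ n ∈ Icc 1 x, sh h n ≤ (1 - δ) * x := by
  obtain ⟨δ, hδ, Y₀, hc⟩ := chg_h h hh
  refine ⟨δ / 4, by positivity, max (2 * (Y₀ + 1)) 4, fun x hx => ?_⟩
  have h1 : 2 * (Y₀ + 1) ≤ x := (le_max_left _ _).trans hx
  have h1' : 4 ≤ x := (le_max_right _ _).trans hx
  have h2 := hc (x / 2) (by omega)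
  have h3 := upper_of (sh h) (sh_le h) ((Ico (x / 2) (2 * (x / 2))).filter (fun n => lam n ≠ lam (n + h))) x (by
    intro n hn
    rw [mem_filter, mem_Ico] at hn
    rw [mem_Icc]
    omega) (by
    intro n hn
    have h4 := (mem_filter.1 hn).2
    unfold sh
    rcases lam_pm' n with h5 | h5 <;> rcases lam_pm' (n + h) with h6 | h6 <;> rw [h5, h6] at h4 ⊢ <;>
      first | exact absurd rfl h4 | norm_num)
  have h5 : x ≤ 4 * (x / 2) := by omega
  have h6 : (x : ℝ) ≤ 4 * ((x / 2 : ℕ) : ℝ) := by exact_mod_cast h5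
  nlinarith

end Pool.Agent.Y955.CH
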