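import Pool.Agent.Y955.CH.Win
import Pool.Agent.Y955.CH.MR
import Pool.Agent.H376R2.MR.Dec

/-!
# The partial sums of `λ(n)λ(n+1)` at every scale
-/

set_option autoImplicit false

namespace Pool.Agent.Y955.CH

open Finset Filter
open Pool.Agent.TH833.BL (S)
open Pool.Agent.H376R2.MR (lam dec_lam_mul)
open Pool.Agent.Y326 (ps)

/-- `λ(n)λ(n+1)` -/
noncomputable def s1 (n : ℕ) : ℝ := (lam n : ℝ) * lam (n + 1)

lemma s1_ps : ps lam 1 = s1 := by
  funext n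
  rfl

lemma lamr (n : ℕ) : (lam n : ℝ) = 1 ∨ (lam n : ℝ) = -1 := by
  rcases lam_pm' n with h | h
  · left; rw [h]; norm_num
  · right; rw [h]; norm_num

lemma s1_pm (n : ℕ) : s1 n = 1 ∨ s1 n = -1 := by
  unfold s1
  rcases lamr n with h | h <;> rcases lamr (n + 1) with h' | h' <;> rw [h, h'] <;> norm_num

lemma s1_le (n : ℕ) : s1 n ≤ 1 := by
  rcases s1_pm n with h | h <;> rw [h]; norm_num

lemma le_s1 (n : ℕ) : -1 ≤ s1 n := by
  rcases s1_pm n with h | h <;> rw [h]; norm_num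

lemma lam_double {m : ℕ} (hm : m ≠ 0) : (lam (2 * m) : ℝ) = - lam m := by
  rw [dec_lam_mul Nat.prime_two hm]
  push_cast
  ring

/-- the defect of the triple `2m, 2m+1, 2m+2` -/
noncomputable def D (m : ℕ) : ℝ := s1 (2 * m) + s1 (2 * m + 1) + s1 m + 1

lemma triple {a b c : ℝ} (ha : a = 1 ∨ a = -1) (hb : b = 1 ∨ b = -1) (hc : c = 1 ∨ c = -1) :
    0 ≤ a * b + b * c + a * c + 1 := by
  rcases ha with rfl | rfl <;> rcases hb with rfl | rfl <;> rcases hc with rfl | rfl <;> norm_num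

lemma D_nonneg {m : ℕ} (hm : m ≠ 0) : 0 ≤ D m := by
  have h := triple (lamr (2 * m)) (lamr (2 * m + 1)) (lamr (2 * m + 2))
  have e : s1 m = (lam (2 * m) : ℝ) * lam (2 * m + 2) := by
    have h1 := lam_double hm
    have h2 := lam_double (m := m + 1) (by omega)
    rw [show 2 * (m + 1) = 2 * m + 2 by ring] at h2
    rw [h1, h2]
    unfold s1
    ring
  unfold D
  rw [e]
  unfold s1
  exact h

lemma Ico_two (F : ℕ → ℝ) (a b : ℕ) (hab : a ≤ b) :
    ∑ n ∈ Ico (2 * a) (2 * b), F n = ∑ m ∈ Ico a b, (F (2 * m) + F (2 * m + 1)) := by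
  induction b, hab using Nat.le_induction with
  | base => simp
  | succ b hb ih =>
    rw [show 2 * (b + 1) = 2 * b + 1 + 1 by ring, sum_Ico_succ_top (by omega), sum_Ico_succ_top (by omega),
      ih, sum_Ico_succ_top hb]
    ring

/-- one step of the recursion -/
lemma step_nat {a : ℕ} : ∑ n ∈ Ico a (4 * a), s1 n = ∑ m ∈ Ico a (2 * a), (D m - 1) := by
  rw [← sum_Ico_consecutive s1 (show a ≤ 2 * a by omega) (show 2 * a ≤ 4 * a by omega)]
  have h := Ico_two s1 a (2 * a) (by omega)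
  rw [show 2 * (2 * a) = 4 * a by ring] at h
  rw [h, ← sum_add_distrib]
  refine sum_congr rfl fun m _ => ?_
  unfold D
  ring

/-- one step of the recursion, with logarithmic weights -/
lemma step_log {a : ℕ} (ha : 1 ≤ a) : ∑ n ∈ Ico a (4 * a), s1 n / n ≤
    (∑ m ∈ Ico a (2 * a), D m) / (2 * a) - (((Ico a (2 * a)).filter (fun n => lam n ≠ lam (n + 1))).card : ℝ) / (2 * a)
      + 1 / (4 * a) := by
  classical
  have ha0 : (0 : ℝ) < a := by exact_mod_cast ha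
  rw [← sum_Ico_consecutive (fun n => s1 n / (n : ℝ)) (show a ≤ 2 * a by omega) (show 2 * a ≤ 4 * a by omega)]
  have h := Ico_two (fun n => s1 n / (n : ℝ)) a (2 * a) (by omega)
  rw [show 2 * (2 * a) = 4 * a by ring] at h
  rw [h, ← sum_add_distrib]
  have key : ∀ m ∈ Ico a (2 * a), s1 m / (m : ℝ) + (s1 (2 * m) / ((2 * m : ℕ) : ℝ) +
      s1 (2 * m + 1) / ((2 * m + 1 : ℕ) : ℝ)) ≤
      D m / (2 * a) - (if lam m ≠ lam (m + 1) then 1 / (2 * (a : ℝ)) else 0) + 1 / (4 * a ^ 2) := by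
    intro m hm
    rw [mem_Ico] at hm
    have hm0 : (0 : ℝ) < m := by exact_mod_cast (by omega : 0 < m)
    have ham : (a : ℝ) ≤ m := by exact_mod_cast hm.1
    have hma : (m : ℝ) ≤ 2 * a := by exact_mod_cast hm.2.le
    have hD := D_nonneg (m := m) (by omega)
    have e1 : s1 m / (m : ℝ) + (s1 (2 * m) / ((2 * m : ℕ) : ℝ) + s1 (2 * m + 1) / ((2 * m + 1 : ℕ) : ℝ)) =
        D m / (2 * m) - (1 - s1 m) / (2 * m) - s1 (2 * m + 1) * (1 / (2 * m * (2 * m + 1))) := by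
      unfold D
      push_cast
      field_simp
      ring
    rw [e1]
    have h1 : D m / (2 * m) ≤ D m / (2 * a) :=
      div_le_div_of_nonneg_left hD (by positivity) (by linarith)
    have h2 : - (s1 (2 * m + 1) * (1 / (2 * m * (2 * m + 1)))) ≤ 1 / (4 * a ^ 2) := by
      have h3 : (0 : ℝ) ≤ 1 / (2 * m * (2 * m + 1)) := by positivity
      have h4 : 1 / (2 * (m : ℝ) * (2 * m + 1)) ≤ 1 / (4 * a ^ 2) := by
        apply one_div_le_one_div_of_le (by positivity)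
        nlinarith
      have h5 := le_s1 (2 * m + 1)
      nlinarith
    have h3 : (if lam m ≠ lam (m + 1) then 1 / (2 * (a : ℝ)) else 0) ≤ (1 - s1 m) / (2 * m) := by
      split_ifs with h4
      · have e : s1 m = -1 := by
          unfold s1
          rcases lam_pm' m with h5 | h5 <;> rcases lam_pm' (m + 1) with h6 | h6 <;> rw [h5, h6] at h4 ⊢ <;>
            first | exact absurd rfl h4 | norm_num
        rw [e, div_le_div_iff₀ (by positivity) (by positivity)]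
        linarith
      · have := s1_le m
        apply div_nonneg (by linarith) (by positivity)
    linarith
  refine (sum_le_sum key).trans ?_
  rw [sum_add_distrib, sum_sub_distrib, ← sum_div, sum_const, Nat.card_Ico, ← sum_filter, sum_const,
    nsmul_eq_mul, nsmul_eq_mul]
  apply le_of_eq
  have e2 : ((2 * a - a : ℕ) : ℝ) = a := by
    rw [show 2 * a - a = a by omega]
  rw [e2]
  field_simp

/-- the lower bound along the multiples of `4 ^ J` -/
theorem one_core : ∃ J : ℕ, ∃ Y : ℕ, ∀ y : ℕ, Y ≤ y →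
    -(1 / 3) * ((4 : ℝ) ^ J * y) + y / 6 ≤ ∑ n ∈ Icc 1 (4 ^ J * y), s1 n := by
  classical
  obtain ⟨δ, hδ, Y₀, hchg⟩ := chg_one
  obtain ⟨W₀, hW⟩ := tao_window (f := lam) Pool.Agent.TH823.MRS.lam_bdd
    (fun p m hp hpm => Pool.Agent.TH823.MRS.lam_flip p m hp hpm) Pool.Agent.TH823.MRS.expo_lam 1 le_rfl
    (δ / 8) (by positivity)
  obtain ⟨J₀, hJ₀⟩ := exists_nat_ge (16 / δ)
  set J : ℕ := max J₀ W₀ with hJ
  have hJW : W₀ ≤ 4 ^ J := by
    have h1 : J < 4 ^ J := Nat.lt_pow_self (by norm_num)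
    have h2 : W₀ ≤ J := le_max_right _ _
    omega
  have hJδ : 16 ≤ J * δ := by
    have h1 : (J₀ : ℝ) ≤ J := by exact_mod_cast le_max_left _ _
    have h2 := hJ₀.trans h1
    rw [div_le_iff₀ hδ] at h2
    exact h2
  obtain ⟨Y₁, hY₁⟩ := exists_nat_ge (2 / δ + 6)
  refine ⟨J, max Y₀ (max Y₁ 6), fun y hy => ?_⟩
  have hy0 : Y₀ ≤ y := (le_max_left _ _).trans hy
  have hy1 : Y₁ ≤ y := ((le_max_left _ _).trans (le_max_right _ _)).trans hy
  have hy2 : 6 ≤ y := ((le_max_right _ _).trans (le_max_right _ _)).trans hy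
  have hy3 : (6 : ℝ) ≤ y := by exact_mod_cast hy2
  have hy4 : 2 / δ + 6 ≤ (y : ℝ) := hY₁.trans (by exact_mod_cast hy1)
  have hyδ : 2 ≤ y * δ := by
    have h1 : 2 / δ ≤ (y : ℝ) := by linarith
    rwa [div_le_iff₀ hδ] at h1
  by_contra hcon
  push Not at hcon
  -- the blocks
  have hblk : ∀ (F : ℕ → ℝ) (j : ℕ), ∑ n ∈ Ico y (4 ^ j * y), F n =
      ∑ i ∈ range j, ∑ n ∈ Ico (4 ^ i * y) (4 * (4 ^ i * y)), F n := by
    intro F j
    induction j with
    | zero => simp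
    | succ j ih =>
      rw [sum_range_succ, ← ih, show 4 * (4 ^ j * y) = 4 ^ (j + 1) * y by ring]
      rw [sum_Ico_consecutive F]
      · have : 1 ≤ 4 ^ j := Nat.one_le_pow _ _ (by norm_num)
        nlinarith
      · rw [pow_succ]
        have : 0 ≤ 4 ^ j * y := Nat.zero_le _
        nlinarith
  set DD : ℝ := ∑ i ∈ range J, ∑ m ∈ Ico (4 ^ i * y) (2 * (4 ^ i * y)), D m with hDD
  have hgeo : ∀ j : ℕ, ∑ i ∈ range j, ((4 : ℝ) ^ i * y) = ((4 : ℝ) ^ j * y - y) / 3 := by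
    intro j
    induction j with
    | zero => simp
    | succ j ih => rw [sum_range_succ, ih, pow_succ]; ring
  have h1 : ∑ n ∈ Ico y (4 ^ J * y), s1 n = DD - ((4 : ℝ) ^ J * y - y) / 3 := by
    rw [hblk s1 J, hDD, ← hgeo J, ← sum_sub_distrib]
    refine sum_congr rfl fun i _ => ?_
    rw [step_nat, sum_sub_distrib, sum_const, Nat.card_Ico, nsmul_eq_mul, mul_one]
    congr 1
    rw [show 2 * (4 ^ i * y) - 4 ^ i * y = 4 ^ i * y by omega]
    push_cast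
    ring
  have hyJ : y ≤ 4 ^ J * y := Nat.le_mul_of_pos_left y (by positivity)
  have h2 : ∑ n ∈ Ico y (4 ^ J * y), s1 n ≤ ∑ n ∈ Icc 1 (4 ^ J * y), s1 n + y + 1 := by
    have e1 : Icc 1 (4 ^ J * y) = Ico 1 (4 ^ J * y + 1) := by
      ext n; rw [mem_Ico, mem_Icc]; omega
    rw [e1, sum_Ico_succ_top (by omega), ← sum_Ico_consecutive s1 (show 1 ≤ y by omega) hyJ]
    have h3 : -((y : ℝ) - 1) ≤ ∑ n ∈ Ico 1 y, s1 n := by
      have h4 : ∑ n ∈ Ico 1 y, (-1 : ℝ) ≤ ∑ n ∈ Ico 1 y, s1 n := sum_le_sum fun n _ => le_s1 n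
      rw [sum_const, Nat.card_Ico, nsmul_eq_mul, Nat.cast_sub (by omega)] at h4
      push_cast at h4
      linarith
    have h4 := le_s1 (4 ^ J * y)
    linarith
  have hDDle : DD ≤ 2 * y := by linarith
  -- logarithmic sums
  have h3 : ∑ n ∈ Ico y (4 ^ J * y), s1 n / n ≤ DD / (2 * y) - J * (δ / 2) + J * (1 / (4 * y)) := by
    rw [hblk (fun n => s1 n / n) J, hDD, sum_div]
    have h4 : ∑ i ∈ range J, ∑ n ∈ Ico (4 ^ i * y) (4 * (4 ^ i * y)), s1 n / n ≤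
        ∑ i ∈ range J, ((∑ m ∈ Ico (4 ^ i * y) (2 * (4 ^ i * y)), D m) / (2 * y) - δ / 2 + 1 / (4 * y)) := by
      refine sum_le_sum fun i _ => ?_
      have h5 : y ≤ 4 ^ i * y := Nat.le_mul_of_pos_left y (by positivity)
      have h6 := step_log (a := 4 ^ i * y) (by omega)
      have h7 := hchg (4 ^ i * y) (hy0.trans h5)
      have h8 : (y : ℝ) ≤ ((4 ^ i * y : ℕ) : ℝ) := by exact_mod_cast h5
      have h9 : 0 ≤ ∑ m ∈ Ico (4 ^ i * y) (2 * (4 ^ i * y)), D m :=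
        sum_nonneg fun m hm => D_nonneg (by rw [mem_Ico] at hm; omega)
      have h10 : (∑ m ∈ Ico (4 ^ i * y) (2 * (4 ^ i * y)), D m) / (2 * ((4 ^ i * y : ℕ) : ℝ)) ≤
          (∑ m ∈ Ico (4 ^ i * y) (2 * (4 ^ i * y)), D m) / (2 * y) :=
        div_le_div_of_nonneg_left h9 (by linarith) (by linarith)
      have h11 : δ / 2 ≤ (((Ico (4 ^ i * y) (2 * (4 ^ i * y))).filter
          (fun n => lam n ≠ lam (n + 1))).card : ℝ) / (2 * ((4 ^ i * y : ℕ) : ℝ)) := by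
        rw [le_div_iff₀ (by linarith)]
        linarith
      have h12 : 1 / (4 * ((4 ^ i * y : ℕ) : ℝ)) ≤ 1 / (4 * (y : ℝ)) :=
        one_div_le_one_div_of_le (by linarith) (by linarith)
      linarith
    refine h4.trans (le_of_eq ?_)
    rw [sum_add_distrib, sum_sub_distrib, sum_const, sum_const, card_range, nsmul_eq_mul, nsmul_eq_mul]
  have hx : 4 ^ J * y / 4 ^ J = y := Nat.mul_div_cancel_left y (by positivity)
  have h4 := hW (4 ^ J) (4 ^ J * y) hJW (Nat.le_mul_of_pos_right _ (by omega))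
  rw [hx, s1_ps] at h4
  have h5 : S s1 (4 ^ J * y) - S s1 y =
      ∑ n ∈ Ico y (4 ^ J * y), s1 n / n + s1 (4 ^ J * y) / ((4 ^ J * y : ℕ) : ℝ) - s1 y / y := by
    have hS : ∀ N : ℕ, 1 ≤ N → S s1 N = ∑ n ∈ Ico 1 N, s1 n / n + s1 N / N := by
      intro N hN
      unfold S
      have e1 : Icc 1 N = Ico 1 (N + 1) := by
        ext n; rw [mem_Ico, mem_Icc]; omega
      rw [e1, sum_Ico_succ_top hN]
      congr 1
      · exact sum_congr rfl fun n _ => by ring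
      · ring
    rw [hS _ (by omega), hS y (by omega), ← sum_Ico_consecutive _ (show 1 ≤ y by omega) hyJ]
    ring
  have h6 : s1 (4 ^ J * y) / ((4 ^ J * y : ℕ) : ℝ) ≤ 1 / (y : ℝ) := by
    have h7 : (y : ℝ) ≤ ((4 ^ J * y : ℕ) : ℝ) := by exact_mod_cast hyJ
    have h8 : s1 (4 ^ J * y) / ((4 ^ J * y : ℕ) : ℝ) ≤ 1 / ((4 ^ J * y : ℕ) : ℝ) :=
      div_le_div_of_nonneg_right (s1_le _) (by positivity)
    have h9 : 1 / ((4 ^ J * y : ℕ) : ℝ) ≤ 1 / (y : ℝ) := one_div_le_one_div_of_le (by linarith) h7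
    linarith
  have h7 : -(1 / (y : ℝ)) ≤ s1 y / (y : ℝ) := by
    rw [← neg_div]
    exact div_le_div_of_nonneg_right (le_s1 _) (by positivity)
  have h8 := (abs_le.1 h4).1
  rw [h5] at h8
  have h9 : Real.log ((4 ^ J : ℕ) : ℝ) ≤ J * (3 / 2) := by
    push_cast
    rw [Real.log_pow]
    apply mul_le_mul_of_nonneg_left _ (Nat.cast_nonneg J)
    have : Real.log 4 = 2 * Real.log 2 := by
      rw [show (4 : ℝ) = 2 ^ 2 by norm_num, Real.log_pow]; norm_num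
    rw [this]
    have := Real.log_two_lt_d9
    linarith
  have h10 : δ / 8 * Real.log ((4 ^ J : ℕ) : ℝ) ≤ δ / 8 * (J * (3 / 2)) :=
    mul_le_mul_of_nonneg_left h9 (by positivity)
  have h11 : 1 / (y : ℝ) ≤ 1 / 6 := one_div_le_one_div_of_le (by norm_num) hy3
  have h12 : DD / (2 * y) ≤ 1 := by
    rw [div_le_iff₀ (by linarith)]
    linarith
  have h13 : (J : ℝ) * (1 / (4 * y)) ≤ J * (δ / 8) := by
    apply mul_le_mul_of_nonneg_left _ (Nat.cast_nonneg J)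
    rw [div_le_iff₀ (by linarith)]
    linarith
  nlinarith

/-- from the multiples of `Q` to all integers -/
lemma of_multiples (F : ℕ → ℝ) (hF : ∀ a b : ℕ, a ≤ b → |F b - F a| ≤ (b : ℝ) - a) (Q : ℕ) (hQ : 1 ≤ Q)
    (c κ : ℝ) (hc : 0 ≤ c) (hκ : 0 < κ) (Y : ℕ) (h : ∀ y, Y ≤ y → -c * (Q * y) + κ * y ≤ F (Q * y)) :
    ∃ δ : ℝ, 0 < δ ∧ ∃ x₀ : ℕ, ∀ x : ℕ, x₀ ≤ x → -(c - δ) * x ≤ F x := by
  have hQ0 : (1 : ℝ) ≤ Q := by exact_mod_cast hQ
  obtain ⟨x₁, hx₁⟩ := exists_nat_ge (2 * Q * (κ + Q) / κ)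
  refine ⟨κ / (2 * Q), by positivity, max x₁ (Q * Y), fun x hx => ?_⟩
  have h1 : 2 * Q * (κ + Q) / κ ≤ x := hx₁.trans (by exact_mod_cast (le_max_left _ _).trans hx)
  have h2 : Q * Y ≤ x := (le_max_right _ _).trans hx
  have h3 : Y ≤ x / Q := by
    rw [Nat.le_div_iff_mul_le (by omega), mul_comm]
    exact h2
  have h4 := h _ h3
  have h5 : Q * (x / Q) ≤ x := Nat.mul_div_le x Q
  have h6 := hF _ _ h5
  have h7 : x < Q * (x / Q) + Q := by
    have := Nat.lt_mul_div_succ x (show 0 < Q by omega)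
    linarith
  have h8 : (x : ℝ) < Q * ((x / Q : ℕ) : ℝ) + Q := by exact_mod_cast h7
  have h9 : (Q : ℝ) * ((x / Q : ℕ) : ℝ) ≤ x := by exact_mod_cast h5
  push_cast at h6
  have h10 := (abs_le.1 h6).1
  rw [div_le_iff₀ hκ] at h1
  set z : ℝ := ((x / Q : ℕ) : ℝ) with hz
  have h11 : κ * z ≥ κ * (x / Q) - κ := by
    have h12 : (x : ℝ) / Q ≤ z + 1 := by
      rw [div_le_iff₀ (by linarith)]
      nlinarith
    nlinarith
  have h12 : κ / (2 * Q) * x ≤ κ * (x / Q) - κ - Q := by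
    have e : κ * ((x : ℝ) / Q) = 2 * (κ / (2 * Q) * x) := by field_simp
    rw [e]
    have h13 : κ + Q ≤ κ / (2 * Q) * x := by
      rw [div_mul_eq_mul_div, le_div_iff₀ (by positivity)]
      linarith
    linarith
  nlinarith

lemma sum_lip (F : ℕ → ℝ) (hF : ∀ n, |F n| ≤ 1) (a b : ℕ) (hab : a ≤ b) :
    |∑ n ∈ Icc 1 b, F n - ∑ n ∈ Icc 1 a, F n| ≤ (b : ℝ) - a := by
  induction b, hab using Nat.le_induction with
  | base => simp
  | succ b hb ih =>
    rw [sum_Icc_succ_top (by omega)]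
    push_cast
    have h1 := abs_add_le (∑ n ∈ Icc 1 b, F n - ∑ n ∈ Icc 1 a, F n) (F (b + 1))
    have h2 := hF (b + 1)
    rw [show ∑ n ∈ Icc 1 b, F n + F (b + 1) - ∑ n ∈ Icc 1 a, F n =
      ∑ n ∈ Icc 1 b, F n - ∑ n ∈ Icc 1 a, F n + F (b + 1) by ring]
    linarith

lemma s1_abs (n : ℕ) : |s1 n| ≤ 1 := abs_le.2 ⟨le_s1 n, s1_le n⟩

/-- **Lower bound at every scale.** -/
theorem one_lower : ∃ δ : ℝ, 0 < δ ∧ ∃ x₀ : ℕ, ∀ x : ℕ, x₀ ≤ x →
    -(1 / 3 - δ) * x ≤ ∑ n ∈ Icc 1 x, s1 n := by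
  obtain ⟨J, Y, h⟩ := one_core
  refine of_multiples (fun N => ∑ n ∈ Icc 1 N, s1 n) (sum_lip s1 s1_abs) (4 ^ J) (Nat.one_le_pow _ _ (by norm_num))
    (1 / 3) (1 / 6) (by norm_num) (by norm_num) Y fun y hy => ?_
  have := h y hy
  push_cast
  linarith

/-- a positive proportion of sign changes up to `x` -/
lemma chg_upto : ∃ δ : ℝ, 0 < δ ∧ ∃ x₀ : ℕ, ∀ x : ℕ, x₀ ≤ x →
    δ * x ≤ (((Icc 1 x).filter (fun n => lam n ≠ lam (n + 1))).card : ℝ) := by
  obtain ⟨δ, hδ, Y₀, h⟩ := chg_one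
  refine ⟨δ / 4, by positivity, max (2 * (Y₀ + 1)) 4, fun x hx => ?_⟩
  have h1 : 2 * (Y₀ + 1) ≤ x := (le_max_left _ _).trans hx
  have h1' : 4 ≤ x := (le_max_right _ _).trans hx
  have h2 := h (x / 2) (by omega)
  have h3 : (Ico (x / 2) (2 * (x / 2))).filter (fun n => lam n ≠ lam (n + 1)) ⊆
      (Icc 1 x).filter (fun n => lam n ≠ lam (n + 1)) := by
    intro n hn
    rw [mem_filter, mem_Ico] at hn
    rw [mem_filter, mem_Icc]
    exact ⟨by omega, hn.2⟩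
  have h4 : (((Ico (x / 2) (2 * (x / 2))).filter (fun n => lam n ≠ lam (n + 1))).card : ℝ) ≤
      (((Icc 1 x).filter (fun n => lam n ≠ lam (n + 1))).card : ℝ) := by
    exact_mod_cast card_le_card h3
  have h5 : x ≤ 4 * (x / 2) := by omega
  have h6 : (x : ℝ) ≤ 4 * ((x / 2 : ℕ) : ℝ) := by exact_mod_cast h5
  nlinarith

lemma upper_of (F : ℕ → ℝ) (hF : ∀ n, F n ≤ 1) (G : Finset ℕ) (x : ℕ) (hG : G ⊆ Icc 1 x)
    (h : ∀ n ∈ G, F n = -1) : ∑ n ∈ Icc 1 x, F n ≤ x - 2 * (G.card : ℝ) := by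
  classical
  rw [← sum_sdiff hG]
  have h1 : ∑ n ∈ G, F n = -(G.card : ℝ) := by
    rw [sum_congr rfl h, sum_const, nsmul_eq_mul]; ring
  have h2 : ∑ n ∈ Icc 1 x \ G, F n ≤ ((Icc 1 x \ G).card : ℝ) := by
    calc _ ≤ ∑ n ∈ Icc 1 x \ G, (1 : ℝ) := sum_le_sum fun n _ => hF n
      _ = _ := by rw [sum_const, nsmul_eq_mul, mul_one]
  have h3 : (Icc 1 x \ G).card = x - G.card := by
    rw [card_sdiff_of_subset hG, Nat.card_Icc]; omega
  have h4 : G.card ≤ x := by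
    have := card_le_card hG
    rw [Nat.card_Icc] at this
    omega
  rw [h3, Nat.cast_sub h4] at h2
  linarith

/-- **Upper bound at every scale.** -/
theorem one_upper : ∃ δ : ℝ, 0 < δ ∧ ∃ x₀ : ℕ, ∀ x : ℕ, x₀ ≤ x →
    ∑ n ∈ Icc 1 x, s1 n ≤ (1 - δ) * x := by
  obtain ⟨δ, hδ, x₀, h⟩ := chg_upto
  refine ⟨δ, hδ, x₀, fun x hx => ?_⟩
  have h1 := upper_of s1 s1_le ((Icc 1 x).filter (fun n => lam n ≠ lam (n + 1))) x (filter_subset _ _) (by
    intro n hn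
    have h4 := (mem_filter.1 hn).2
    unfold s1
    rcases lam_pm' n with h5 | h5 <;> rcases lam_pm' (n + 1) with h6 | h6 <;> rw [h5, h6] at h4 ⊢ <;>
      first | exact absurd rfl h4 | norm_num)
  have h2 := h x hx
  nlinarith [(Nat.cast_nonneg x : (0 : ℝ) ≤ x)]

end Pool.Agent.Y955.CH
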