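import Pool.Agent.Y955.CH.One

/-!
# The partial sums of `λ(n)λ(n+2)` at every scale
-/

set_option autoImplicit false

namespace Pool.Agent.Y955.CH

open Finset Filter
open Pool.Agent.TH833.BL (S)
open Pool.Agent.H376R2.MR (lam dec_lam_mul)
open Pool.Agent.Y326 (ps)

/-- `λ(n)λ(n+2)` -/
noncomputable def s2 (n : ℕ) : ℝ := (lam n : ℝ) * lam (n + 2)

lemma s2_pm (n : ℕ) : s2 n = 1 ∨ s2 n = -1 := by
  unfold s2
  rcases lamr n with h | h <;> rcases lamr (n + 2) with h' | h' <;> rw [h, h'] <;> norm_num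

lemma s2_le (n : ℕ) : s2 n ≤ 1 := by
  rcases s2_pm n with h | h <;> rw [h]; norm_num

lemma le_s2 (n : ℕ) : -1 ≤ s2 n := by
  rcases s2_pm n with h | h <;> rw [h]; norm_num

lemma s2_abs (n : ℕ) : |s2 n| ≤ 1 := abs_le.2 ⟨le_s2 n, s2_le n⟩

lemma s2_even {m : ℕ} (hm : m ≠ 0) : s2 (2 * m) = s1 m := by
  have h1 := lam_double hm
  have h2 := lam_double (m := m + 1) (by omega)
  unfold s2 s1
  rw [show 2 * m + 2 = 2 * (m + 1) by ring, h1, h2]
  ring

/-- the defect of the triple `2m+1, 2m+2, 2m+3` -/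
noncomputable def E (m : ℕ) : ℝ := s2 (2 * m + 1) + 1 + (s1 (2 * m + 1) + s1 (2 * m + 2))

lemma E_nonneg (m : ℕ) : 0 ≤ E m := by
  have h := triple (lamr (2 * m + 1)) (lamr (2 * m + 2)) (lamr (2 * m + 3))
  unfold E s2 s1
  have e : (lam (2 * m + 1) : ℝ) * lam (2 * m + 1 + 2) + 1 +
      (lam (2 * m + 1) * lam (2 * m + 1 + 1) + lam (2 * m + 2) * lam (2 * m + 2 + 1)) =
      lam (2 * m + 1) * lam (2 * m + 2) + lam (2 * m + 2) * lam (2 * m + 3) +
        lam (2 * m + 1) * lam (2 * m + 3) + 1 := by ring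
  rw [e]
  exact h

lemma range_two' (F : ℕ → ℝ) (N : ℕ) :
    ∑ n ∈ Icc 1 (2 * N), F n = ∑ m ∈ range N, (F (2 * m + 1) + F (2 * m + 2)) := by
  induction N with
  | zero => simp
  | succ N ih =>
    rw [show 2 * (N + 1) = 2 * N + 1 + 1 by ring, sum_Icc_succ_top (by omega), sum_Icc_succ_top (by omega),
      ih, sum_range_succ]
    ring

/-- the basic inequality -/
lemma basic (N : ℕ) : ∑ m ∈ range N, E m - 2 * N - 1 ≤ ∑ n ∈ Icc 1 (4 * N), s2 n := by
  have h1 := range_two' s2 (2 * N)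
  rw [show 2 * (2 * N) = 4 * N by ring] at h1
  rw [h1, sum_add_distrib]
  have h2 : ∑ m ∈ range (2 * N), s2 (2 * m + 2) = ∑ n ∈ Icc 1 (2 * N), s1 n := by
    have e1 : Icc 1 (2 * N) = (range (2 * N)).image (fun m => m + 1) := by
      ext n
      rw [mem_Icc, mem_image]
      constructor
      · intro h
        exact ⟨n - 1, mem_range.2 (by omega), by omega⟩
      · rintro ⟨m, hm, rfl⟩
        rw [mem_range] at hm
        omega
    rw [e1, sum_image (fun a _ b _ h => by simpa using h)]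
    refine sum_congr rfl fun m _ => ?_
    rw [show 2 * m + 2 = 2 * (m + 1) by ring, s2_even (by omega)]
  have h3 := range_two' s1 N
  have h4 : ∑ m ∈ range (2 * N), s2 (2 * m + 1) ≥ ∑ m ∈ range N, s2 (2 * m + 1) - N := by
    rw [range_eq_Ico, range_eq_Ico, ← sum_Ico_consecutive _ (Nat.zero_le N) (show N ≤ 2 * N by omega)]
    have h5 : ∑ m ∈ Ico N (2 * N), (-1 : ℝ) ≤ ∑ m ∈ Ico N (2 * N), s2 (2 * m + 1) :=
      sum_le_sum fun m _ => le_s2 _
    rw [sum_const, Nat.card_Ico, show 2 * N - N = N by omega, nsmul_eq_mul] at h5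
    linarith
  have h5 : ∑ m ∈ range N, E m = ∑ m ∈ range N, s2 (2 * m + 1) + N + ∑ n ∈ Icc 1 (2 * N), s1 n := by
    rw [h3]
    unfold E
    rw [sum_add_distrib, sum_add_distrib, sum_const, card_range, nsmul_eq_mul, mul_one]
  rw [h2]
  linarith

lemma inv_sq (y : ℕ) (hy : 1 ≤ y) (b : ℕ) (hb : y ≤ b) :
    ∑ m ∈ Ico y b, 1 / (m : ℝ) ^ 2 ≤ 2 / (y : ℝ) - 2 / (b : ℝ) := by
  induction b, hb using Nat.le_induction with
  | base => simp
  | succ b hb ih =>
    rw [sum_Ico_succ_top hb]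
    have hb0 : (1 : ℝ) ≤ b := by exact_mod_cast hy.trans hb
    have h1 : 1 / (b : ℝ) ^ 2 ≤ 2 / b - 2 / (b + 1) := by
      rw [div_sub_div _ _ (by positivity) (by positivity), div_le_div_iff₀ (by positivity) (by positivity)]
      nlinarith
    push_cast
    linarith

/-- the lower bound along the multiples of `4 * 2 ^ J` -/
theorem two_core : ∃ J : ℕ, ∃ Y : ℕ, ∀ y : ℕ, Y ≤ y →
    -(2 * ((2 : ℝ) ^ J * y)) + y ≤ ∑ n ∈ Icc 1 (4 * (2 ^ J * y)), s2 n := by
  classical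
  obtain ⟨δ, hδ, Y₀, hchg⟩ := chg_two
  obtain ⟨W₀, hW⟩ := tao_window (f := lam) Pool.Agent.TH823.MRS.lam_bdd
    (fun p m hp hpm => Pool.Agent.TH823.MRS.lam_flip p m hp hpm) Pool.Agent.TH823.MRS.expo_lam 1 le_rfl
    (δ / 4) (by positivity)
  obtain ⟨J₀, hJ₀⟩ := exists_nat_ge (16 / δ)
  set J : ℕ := max J₀ W₀ with hJ
  have hJW : W₀ ≤ 2 ^ J := by
    have h1 : J < 2 ^ J := Nat.lt_pow_self (by norm_num)
    have h2 : W₀ ≤ J := le_max_right _ _
    omega
  have hJδ : 16 ≤ J * δ := by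
    have h1 : (J₀ : ℝ) ≤ J := by exact_mod_cast le_max_left _ _
    have h2 := hJ₀.trans h1
    rw [div_le_iff₀ hδ] at h2
    exact h2
  refine ⟨J, max Y₀ 2, fun y hy => ?_⟩
  have hy0 : Y₀ ≤ y := (le_max_left _ _).trans hy
  have hy2 : 2 ≤ y := (le_max_right _ _).trans hy
  have hy3 : (2 : ℝ) ≤ y := by exact_mod_cast hy2
  have hyJ : y ≤ 2 ^ J * y := Nat.le_mul_of_pos_left y (by positivity)
  by_contra hcon
  push Not at hcon
  have hb := basic (2 ^ J * y)
  push_cast at hb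
  have hE : ∑ m ∈ range (2 ^ J * y), E m ≤ y + 1 := by linarith
  -- the window
  have h1 : ∑ m ∈ Ico y (2 ^ J * y), E m / m ≤ 2 := by
    have h2 : ∑ m ∈ Ico y (2 ^ J * y), E m / m ≤ ∑ m ∈ Ico y (2 ^ J * y), E m / y := by
      refine sum_le_sum fun m hm => ?_
      rw [mem_Ico] at hm
      exact div_le_div_of_nonneg_left (E_nonneg m) (by linarith) (by exact_mod_cast hm.1)
    have h3 : ∑ m ∈ Ico y (2 ^ J * y), E m ≤ ∑ m ∈ range (2 ^ J * y), E m := by
      refine sum_le_sum_of_subset_of_nonneg ?_ fun m _ _ => E_nonneg m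
      intro m hm
      rw [mem_Ico] at hm
      exact mem_range.2 hm.2
    rw [← sum_div] at h2
    refine h2.trans ?_
    rw [div_le_iff₀ (by linarith)]
    linarith
  -- Tao
  have hx : 2 ^ J * (2 * y) / 2 ^ J = 2 * y := Nat.mul_div_cancel_left _ (by positivity)
  have h4 := hW (2 ^ J) (2 ^ J * (2 * y)) hJW (Nat.le_mul_of_pos_right _ (by omega))
  rw [hx, s1_ps] at h4
  have h5 : S s1 (2 ^ J * (2 * y)) - S s1 (2 * y) = ∑ m ∈ Ico y (2 ^ J * y),
      (s1 (2 * m + 1) / ((2 * m + 1 : ℕ) : ℝ) + s1 (2 * m + 2) / ((2 * m + 2 : ℕ) : ℝ)) := by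
    have hS : ∀ N : ℕ, S s1 (2 * N) = ∑ m ∈ range N,
        (s1 (2 * m + 1) / ((2 * m + 1 : ℕ) : ℝ) + s1 (2 * m + 2) / ((2 * m + 2 : ℕ) : ℝ)) := by
      intro N
      unfold S
      rw [← range_two' (fun n => s1 n / (n : ℝ)) N]
      exact sum_congr rfl fun n _ => by ring
    rw [show 2 ^ J * (2 * y) = 2 * (2 ^ J * y) by ring, hS, hS, range_eq_Ico, range_eq_Ico,
      ← sum_Ico_consecutive _ (Nat.zero_le y) hyJ]
    ring
  have h6 : ∑ m ∈ Ico y (2 ^ J * y),
      (s1 (2 * m + 1) / ((2 * m + 1 : ℕ) : ℝ) + s1 (2 * m + 2) / ((2 * m + 2 : ℕ) : ℝ)) ≤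
      ∑ m ∈ Ico y (2 ^ J * y), ((s1 (2 * m + 1) + s1 (2 * m + 2)) / (2 * m) + 1 / (m : ℝ) ^ 2) := by
    refine sum_le_sum fun m hm => ?_
    rw [mem_Ico] at hm
    have hm0 : (1 : ℝ) ≤ m := by exact_mod_cast (by omega : 1 ≤ m)
    push_cast
    have e1 : s1 (2 * m + 1) / (2 * (m : ℝ) + 1) + s1 (2 * m + 2) / (2 * (m : ℝ) + 2) =
        (s1 (2 * m + 1) + s1 (2 * m + 2)) / (2 * m) - s1 (2 * m + 1) * (1 / (2 * m * (2 * m + 1))) -
          s1 (2 * m + 2) * (1 / (2 * m * (m + 1))) := by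
      field_simp
      ring
    rw [e1]
    have h7 := le_s1 (2 * m + 1)
    have h8 := le_s1 (2 * m + 2)
    have h9 : 1 / (2 * (m : ℝ) * (2 * m + 1)) ≤ 1 / (2 * (m : ℝ) ^ 2) := by
      apply one_div_le_one_div_of_le (by positivity)
      nlinarith
    have h10 : 1 / (2 * (m : ℝ) * (m + 1)) ≤ 1 / (2 * (m : ℝ) ^ 2) := by
      apply one_div_le_one_div_of_le (by positivity)
      nlinarith
    have h11 : (0 : ℝ) ≤ 1 / (2 * m * (2 * m + 1)) := by positivity
    have h12 : (0 : ℝ) ≤ 1 / (2 * m * (m + 1)) := by positivity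
    have h13 : 1 / (m : ℝ) ^ 2 = 1 / (2 * (m : ℝ) ^ 2) + 1 / (2 * (m : ℝ) ^ 2) := by
      field_simp
      norm_num
    rw [h13]
    nlinarith
  have h7 := (abs_le.1 h4).1
  rw [h5] at h7
  replace h7 := h7.trans h6
  rw [sum_add_distrib] at h7
  have h8 := inv_sq y (by omega) (2 ^ J * y) hyJ
  have h8' : 2 / (y : ℝ) - 2 / ((2 ^ J * y : ℕ) : ℝ) ≤ 1 := by
    have h9 : 2 / (y : ℝ) ≤ 1 := by
      rw [div_le_iff₀ (by linarith)]; linarith
    have h10 : 0 ≤ 2 / ((2 ^ J * y : ℕ) : ℝ) := by positivity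
    linarith
  have h9 : ∑ m ∈ Ico y (2 ^ J * y), (s2 (2 * m + 1) + 1) / (m : ℝ) =
      ∑ m ∈ Ico y (2 ^ J * y), E m / m - 2 * ∑ m ∈ Ico y (2 ^ J * y), (s1 (2 * m + 1) + s1 (2 * m + 2)) / (2 * m) := by
    rw [mul_sum, ← sum_sub_distrib]
    refine sum_congr rfl fun m hm => ?_
    rw [mem_Ico] at hm
    have hm0 : (0 : ℝ) < m := by exact_mod_cast (by omega : 0 < m)
    unfold E
    field_simp
    ring
  -- the lower bound
  have h10 : J * δ ≤ ∑ m ∈ Ico y (2 ^ J * y), (s2 (2 * m + 1) + 1) / (m : ℝ) := by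
    have hblk : ∀ (F : ℕ → ℝ) (j : ℕ), ∑ n ∈ Ico y (2 ^ j * y), F n =
        ∑ i ∈ range j, ∑ n ∈ Ico (2 ^ i * y) (2 * (2 ^ i * y)), F n := by
      intro F j
      induction j with
      | zero => simp
      | succ j ih =>
        rw [sum_range_succ, ← ih, show 2 * (2 ^ j * y) = 2 ^ (j + 1) * y by ring]
        rw [sum_Ico_consecutive F]
        · have : 1 ≤ 2 ^ j := Nat.one_le_pow _ _ (by norm_num)
          nlinarith
        · rw [pow_succ]
          have : 0 ≤ 2 ^ j * y := Nat.zero_le _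
          nlinarith
    rw [hblk]
    have h11 : ∑ i ∈ range J, δ ≤ ∑ i ∈ range J, ∑ m ∈ Ico (2 ^ i * y) (2 * (2 ^ i * y)),
        (s2 (2 * m + 1) + 1) / (m : ℝ) := by
      refine sum_le_sum fun i _ => ?_
      set a : ℕ := 2 ^ i * y with ha
      have h5 : y ≤ a := Nat.le_mul_of_pos_left y (by positivity)
      have h12 := hchg a (hy0.trans h5)
      have ha0 : (0 : ℝ) < a := by exact_mod_cast (by omega : 0 < a)
      calc δ ≤ (((Ico a (2 * a)).filter (fun m => lam (2 * m + 1) = lam (2 * m + 3))).card : ℝ) * (1 / a) := by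
            rw [mul_one_div, le_div_iff₀ ha0]
            exact h12
        _ = ∑ m ∈ (Ico a (2 * a)).filter (fun m => lam (2 * m + 1) = lam (2 * m + 3)), 1 / (a : ℝ) := by
            rw [sum_const, nsmul_eq_mul]
        _ ≤ ∑ m ∈ (Ico a (2 * a)).filter (fun m => lam (2 * m + 1) = lam (2 * m + 3)),
            (s2 (2 * m + 1) + 1) / (m : ℝ) := by
            refine sum_le_sum fun m hm => ?_
            rw [mem_filter, mem_Ico] at hm
            have hm0 : (0 : ℝ) < m := by exact_mod_cast (by omega : 0 < m)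
            have hma : (m : ℝ) ≤ 2 * a := by exact_mod_cast hm.1.2.le
            have e : s2 (2 * m + 1) = 1 := by
              unfold s2
              rw [show 2 * m + 1 + 2 = 2 * m + 3 by ring, ← hm.2]
              rcases lamr (2 * m + 1) with h | h <;> rw [h] <;> norm_num
            rw [e, div_le_div_iff₀ ha0 hm0]
            linarith
        _ ≤ _ := by
            refine sum_le_sum_of_subset_of_nonneg (filter_subset _ _) fun m _ _ => ?_
            have := le_s2 (2 * m + 1)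
            exact div_nonneg (by linarith) (Nat.cast_nonneg m)
    rw [sum_const, card_range, nsmul_eq_mul] at h11
    exact h11
  have h11 : Real.log ((2 ^ J : ℕ) : ℝ) ≤ J * (3 / 4) := by
    push_cast
    rw [Real.log_pow]
    apply mul_le_mul_of_nonneg_left _ (Nat.cast_nonneg J)
    have := Real.log_two_lt_d9
    linarith
  have h12 : δ / 4 * Real.log ((2 ^ J : ℕ) : ℝ) ≤ δ / 4 * (J * (3 / 4)) :=
    mul_le_mul_of_nonneg_left h11 (by positivity)
  nlinarith

/-- **Lower bound at every scale.** -/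
theorem two_lower : ∃ δ : ℝ, 0 < δ ∧ ∃ x₀ : ℕ, ∀ x : ℕ, x₀ ≤ x →
    -(1 / 2 - δ) * x ≤ ∑ n ∈ Icc 1 x, s2 n := by
  obtain ⟨J, Y, h⟩ := two_core
  refine of_multiples (fun N => ∑ n ∈ Icc 1 N, s2 n) (sum_lip s2 s2_abs) (4 * 2 ^ J)
    (by have := Nat.one_le_two_pow (n := J); omega)
    (1 / 2) 1 (by norm_num) (by norm_num) Y fun y hy => ?_
  have := h y hy
  rw [show 4 * 2 ^ J * y = 4 * (2 ^ J * y) by ring]
  push_cast
  linarith

/-- **Upper bound at every scale.** -/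
theorem two_upper : ∃ δ : ℝ, 0 < δ ∧ ∃ x₀ : ℕ, ∀ x : ℕ, x₀ ≤ x →
    ∑ n ∈ Icc 1 x, s2 n ≤ (1 - δ) * x := by
  classical
  obtain ⟨δ, hδ, x₀, h⟩ := chg_upto
  refine ⟨δ / 2, by positivity, max (2 * x₀) 2, fun x hx => ?_⟩
  have h1 : 2 * x₀ ≤ x := (le_max_left _ _).trans hx
  have h1' : 2 ≤ x := (le_max_right _ _).trans hx
  set G := ((Icc 1 (x / 2)).filter (fun n => lam n ≠ lam (n + 1))).image (fun m => 2 * m) with hG
  have h2 := upper_of s2 s2_le G x (by
    intro n hn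
    rw [hG, mem_image] at hn
    obtain ⟨m, hm, rfl⟩ := hn
    rw [mem_filter, mem_Icc] at hm
    rw [mem_Icc]
    omega) (by
    intro n hn
    rw [hG, mem_image] at hn
    obtain ⟨m, hm, rfl⟩ := hn
    rw [mem_filter, mem_Icc] at hm
    rw [s2_even (by omega)]
    have h4 := hm.2
    unfold s1
    rcases lam_pm' m with h5 | h5 <;> rcases lam_pm' (m + 1) with h6 | h6 <;> rw [h5, h6] at h4 ⊢ <;>
      first | exact absurd rfl h4 | norm_num)
  have h3 : G.card = ((Icc 1 (x / 2)).filter (fun n => lam n ≠ lam (n + 1))).card :=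
    card_image_of_injective _ fun a b hab => by
      have : 2 * a = 2 * b := hab
      omega
  have h4 := h (x / 2) (by omega)
  rw [← h3] at h4
  have h5 : x ≤ 4 * (x / 2) := by omega
  have h6 : (x : ℝ) ≤ 4 * ((x / 2 : ℕ) : ℝ) := by exact_mod_cast h5
  nlinarith

end Pool.Agent.Y955.CH
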