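import Pool.Agent.Y326.Chw2

/-!
# Two-point correlations in logarithmic mean over windows `(x / w, x]`

Tao's theorem in its windowed form: the windows `(x / w, x]`, `w → ∞` with no lower bound on the
speed. The proof repeats `Pool.Agent.Y326.mean_zero` for means along windows.
-/

set_option autoImplicit false

namespace Pool.Agent.Y955.CH

open Finset Filter Pool.Agent.TH112.BL Pool.Agent.Y326
open Pool.Agent.TH833.BL (S H H_le le_H one_le_log S_bound S_add S_smul S_one S_nonneg S_succ shift_diff dil_diff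
  S_sub_bound log_tendsto)
open Pool.Agent.TH823.MRS (ExpoSmall)

variable {f : ℕ → ℤ}

/-- the means of the correlations over a block of primes are small -/
lemma block_mean' (hf : ∀ n, |f n| ≤ 1) (hE : ExpoSmall (fun n => (f n : ℂ))) (M : LM)
    (hle : ∀ φ : ℕ → ℝ, Bd φ → ∀ c : ℝ, 0 ≤ c →
      (∃ N₀ : ℕ, ∀ N : ℕ, N₀ ≤ N → |∑ n ∈ Icc 1 N, φ n| ≤ c * N) → M.m φ ≤ c)
    (h : ℕ) (hh : 1 ≤ h) (ε : ℝ) (hε : 0 < ε) : ∃ i₀ : ℕ, ∀ i : ℕ, i₀ ≤ i →
      ∑ p ∈ QD i (i + 1), Real.log p / 2 ^ i * |M.m (ps f (p * h))| ≤ ε := by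
  obtain ⟨i₀, hi₀⟩ := block_corr hf hE h hh ε hε
  refine ⟨i₀, fun i hi => ?_⟩
  obtain ⟨N₀, hN₀⟩ := hi₀ i hi
  have hw : ∀ p ∈ QD i (i + 1), 0 ≤ Real.log p / 2 ^ i := by
    intro p hp
    have hpp : p.Prime := (mem_filter.1 hp).2
    exact div_nonneg (Real.log_nonneg (by exact_mod_cast hpp.one_lt.le)) (by positivity)
  -- signs
  have hsg : ∀ x : ℝ, ∃ σ : ℝ, |σ| ≤ 1 ∧ σ * x = |x| := by
    intro x
    rcases le_total 0 x with hx | hx
    · exact ⟨1, by simp, by rw [one_mul, abs_of_nonneg hx]⟩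
    · exact ⟨-1, by simp, by rw [abs_of_nonpos hx]; ring⟩
  choose σ hσ1 hσ2 using fun p : ℕ => hsg (M.m (ps f (p * h)))
  have hb : ∀ p : ℕ, Bd (fun n => (Real.log p / 2 ^ i * σ p) * ps f (p * h) n) := fun p =>
    (ps_bd hf (p * h)).cmul _
  set φ : ℕ → ℝ := fun n => ∑ p ∈ QD i (i + 1), (Real.log p / 2 ^ i * σ p) * ps f (p * h) n with hφ
  have hφb : Bd φ := Bd.sum _ fun p _ => hb p
  have h1 : M.m φ = ∑ p ∈ QD i (i + 1), Real.log p / 2 ^ i * |M.m (ps f (p * h))| := by
    rw [hφ, M.sum _ fun p _ => hb p]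
    refine sum_congr rfl fun p _ => ?_
    rw [M.smul _ _ (ps_bd hf _), mul_assoc, hσ2]
  rw [← h1]
  refine hle φ hφb ε hε.le ⟨N₀, fun N hN => ?_⟩
  refine le_trans ?_ (hN₀ N hN)
  rw [hφ, sum_comm]
  refine (abs_sum_le_sum_abs _ _).trans (sum_le_sum fun p hp => ?_)
  rw [← mul_sum, abs_mul, abs_mul, abs_of_nonneg (hw p hp)]
  apply mul_le_mul_of_nonneg_right _ (abs_nonneg _)
  calc _ ≤ Real.log p / 2 ^ i * 1 := mul_le_mul_of_nonneg_left (hσ1 p) (hw p hp)
    _ = _ := mul_one _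

/-- **The mean of the correlation vanishes**, for every mean which is controlled by the natural
averages. -/
theorem mean_zero' (hf : ∀ n, |f n| ≤ 1) (hfl : ∀ p m : ℕ, p.Prime → ¬ p ∣ m → f (p * m) = - f m)
    (hE : ExpoSmall (fun n => (f n : ℂ))) (M : LM)
    (hle : ∀ φ : ℕ → ℝ, Bd φ → ∀ c : ℝ, 0 ≤ c →
      (∃ N₀ : ℕ, ∀ N : ℕ, N₀ ≤ N → |∑ n ∈ Icc 1 N, φ n| ≤ c * N) → M.m φ ≤ c)
    (h : ℕ) (hh : 1 ≤ h) : M.m (ps f h) = 0 := by
  classical
  set s : ℝ := M.m (ps f h) with hs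
  have key : ∀ ε : ℝ, 0 < ε → |s| ≤ 54 * ε := by
    intro ε hε
    obtain ⟨i₀, hi₀⟩ := block_mean' hf hE M hle h hh ε hε
    obtain ⟨i₁, hi₁⟩ := cheb
    obtain ⟨i₂, hi₂⟩ : ∃ i₂ : ℕ, 1 / ε ≤ i₂ := exists_nat_ge _
    obtain ⟨i, hi, hdec⟩ := decouple_TH928 M (letter hf) (fun (_ : Unit) n => n) (fun _ _ => 1)
      (fun _ _ => rfl) () (by
        intro W hW r v hr
        have e1 : ∀ n : ℕ, (∀ k : Unit, k ≠ () → n % W = v k) ↔ True := fun n =>
          iff_of_true (fun k hk => absurd rfl hk) trivial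
        simp only [e1, true_and, if_true]
        rw [M.one, mul_one, mean_mod M W hW r hr])
      (2 * (h + 1)) ε hε (max (max i₀ i₁) (max i₂ 1))
    have hstep : ∀ i' : ℕ, i ≤ i' → i' ≤ i + 1 →
        |s| * ∑ p ∈ QD i' (i' + 1), Real.log p / 2 ^ i' ≤ 18 * ε := by
      intro i' h1 h2
      have hd := hdec i' h1 h2 (Psi f h) (fun p n r => Psi_le hf h p n r) (by
        intro p hp n n' r hw _
        exact Psi_win hf h i' p hp n n' r hw)
      have ha : ∀ p ∈ QD i' (i' + 1), 0 ≤ Real.log p / 2 ^ i' := by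
        intro p hp
        have hpp : p.Prime := (mem_filter.1 hp).2
        exact div_nonneg (Real.log_nonneg (by exact_mod_cast hpp.one_lt.le)) (by positivity)
      have hi' : max (max i₀ i₁) (max i₂ 1) ≤ i' := hi.trans h1
      have hi0 : i₀ ≤ i' := ((le_max_left _ _).trans (le_max_left _ _)).trans hi'
      have hi2 : i₂ ≤ i' := ((le_max_left _ _).trans (le_max_right _ _)).trans hi'
      have hb1 : ∀ p, Bd (fun n => Psi f h p n (n % p)) := fun p => ⟨1, fun n => Psi_le hf h p n _⟩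
      have hb2 : ∀ p : ℕ, Bd (fun n => (∑ j ∈ range p, ps f (p * h) (n + j)) / p) := by
        intro p
        have := (Bd.sum (range p) (φ := fun j n => ps f (p * h) (n + j))
          fun j _ => (ps_bd hf (p * h)).comp (fun n => n + j)).cmul (1 / (p : ℝ))
        refine (congrArg Bd (funext fun n => ?_)).mp this
        ring
      have hb2m : ∀ p : ℕ, 1 ≤ p → M.m (fun n => (∑ j ∈ range p, ps f (p * h) (n + j)) / p) =
          M.m (ps f (p * h)) := by
        intro p hp
        have e : (fun n => (∑ j ∈ range p, ps f (p * h) (n + j)) / p) =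
            fun n => (1 / (p : ℝ)) * ∑ j ∈ range p, ps f (p * h) (n + j) := by
          funext n; ring
        rw [e, M.smul _ _ (Bd.sum (range p) (φ := fun j n => ps f (p * h) (n + j))
          fun j _ => (ps_bd hf (p * h)).comp (fun n => n + j)),
          M.sum (range p) (φ := fun j n => ps f (p * h) (n + j))
            fun j _ => (ps_bd hf (p * h)).comp (fun n => n + j)]
        have e3 : ∀ j ∈ range p, M.m (fun n => ps f (p * h) (n + j)) = M.m (ps f (p * h)) :=
          fun j _ => M.shiftk j (ps_bd hf _)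
        rw [sum_congr rfl e3, sum_const, card_range, nsmul_eq_mul]
        have : (p : ℝ) ≠ 0 := by positivity
        field_simp
      have hb3 : ∀ p : ℕ, Bd (fun n => Real.log p / 2 ^ i' *
          (Psi f h p n (n % p) - (∑ j ∈ range p, ps f (p * h) (n + j)) / p)) := by
        intro p
        refine Bd.cmul _ ?_
        have := (hb1 p).add ((hb2 p).cmul (-1))
        simpa [sub_eq_add_neg] using this
      have hd' : M.m (fun n => |∑ p ∈ QD i' (i' + 1), Real.log p / 2 ^ i' *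
          (Psi f h p n (n % p) - (∑ j ∈ range p, ps f (p * h) (n + j)) / p)|) ≤ ε := by
        refine le_trans (le_of_eq ?_) hd
        congr 1
        funext n
        congr 1
        refine sum_congr rfl fun p hp => ?_
        have hpp : p.Prime := (mem_filter.1 hp).2
        rw [Psi_avg h p n hpp.one_lt.le]
      have h3 : |∑ p ∈ QD i' (i' + 1), Real.log p / 2 ^ i' *
          (M.m (fun n => Psi f h p n (n % p)) - M.m (ps f (p * h)))| ≤ ε := by
        refine le_trans (le_of_eq ?_) ((M.abs_le (Bd.sum _ fun p _ => hb3 p)).trans hd')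
        congr 1
        rw [M.sum _ (fun p _ => hb3 p)]
        refine sum_congr rfl fun p hp => ?_
        have hpp : p.Prime := (mem_filter.1 hp).2
        have hb4 : Bd (fun n => Psi f h p n (n % p) - (∑ j ∈ range p, ps f (p * h) (n + j)) / p) := by
          have := (hb1 p).add ((hb2 p).cmul (-1))
          simpa [sub_eq_add_neg] using this
        rw [M.smul _ _ hb4, M.sub (hb1 p) (hb2 p), hb2m p hpp.one_lt.le]
      have h4 := hi₀ i' hi0
      have hsmall : ∀ p ∈ QD i' (i' + 1), 4 / (p : ℝ) ≤ 4 * ε := by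
        intro p hp
        have hp1 : 2 ^ i' < p := (mem_Ioc.1 (mem_filter.1 hp).1).1
        have h5 : i' < 2 ^ i' := Nat.lt_two_pow_self
        have h6 : (i₂ : ℝ) ≤ p := by exact_mod_cast (by omega : i₂ ≤ p)
        have h7 : 1 / ε ≤ p := hi₂.trans h6
        have hp0 : (0 : ℝ) < p := by exact_mod_cast (by omega : 0 < p)
        rw [div_le_iff₀ hp0]
        rw [div_le_iff₀ hε] at h7
        linarith
      have h5 : ∀ p ∈ QD i' (i' + 1), |s - M.m (fun n => Psi f h p n (n % p))| ≤ 4 * ε := by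
        intro p hp
        have hpp : p.Prime := (mem_filter.1 hp).2
        rw [Psi_mean hf M h p hpp.one_lt.le]
        exact (dil_mean hf hfl M h p hpp).trans (hsmall p hp)
      have hW := weight_le i'
      set W := ∑ p ∈ QD i' (i' + 1), Real.log p / 2 ^ i' with hWd
      have hW0 : 0 ≤ W := sum_nonneg ha
      have h6 : s * W = ∑ p ∈ QD i' (i' + 1), Real.log p / 2 ^ i' *
            (s - M.m (fun n => Psi f h p n (n % p))) +
          ∑ p ∈ QD i' (i' + 1), Real.log p / 2 ^ i' *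
            (M.m (fun n => Psi f h p n (n % p)) - M.m (ps f (p * h))) +
          ∑ p ∈ QD i' (i' + 1), Real.log p / 2 ^ i' * M.m (ps f (p * h)) := by
        rw [hWd, mul_sum, ← sum_add_distrib, ← sum_add_distrib]
        refine sum_congr rfl fun p _ => ?_
        ring
      have h7 : |∑ p ∈ QD i' (i' + 1), Real.log p / 2 ^ i' *
            (s - M.m (fun n => Psi f h p n (n % p)))| ≤ W * (4 * ε) := by
        refine (abs_sum_le_sum_abs _ _).trans ?_
        rw [hWd, sum_mul]
        refine sum_le_sum fun p hp => ?_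
        rw [abs_mul, abs_of_nonneg (ha p hp)]
        exact mul_le_mul_of_nonneg_left (h5 p hp) (ha p hp)
      have h8 : |∑ p ∈ QD i' (i' + 1), Real.log p / 2 ^ i' * M.m (ps f (p * h))| ≤ ε := by
        refine (abs_sum_le_sum_abs _ _).trans (le_trans (le_of_eq ?_) h4)
        refine sum_congr rfl fun p hp => ?_
        rw [abs_mul, abs_of_nonneg (ha p hp)]
      have h9 : |s| * W = |s * W| := by rw [abs_mul, abs_of_nonneg hW0]
      rw [h9, h6]
      refine (abs_add_le _ _).trans ?_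
      have h10 := abs_add_le (∑ p ∈ QD i' (i' + 1), Real.log p / 2 ^ i' *
            (s - M.m (fun n => Psi f h p n (n % p)))) (∑ p ∈ QD i' (i' + 1), Real.log p / 2 ^ i' *
            (M.m (fun n => Psi f h p n (n % p)) - M.m (ps f (p * h))))
      have h11 : W * (4 * ε) ≤ 16 * ε := by nlinarith
      linarith
    have h1 := hstep i le_rfl (Nat.le_succ i)
    have h2 := hstep (i + 1) (Nat.le_succ i) le_rfl
    have h3 := hi₁ i (((le_max_right _ _).trans (le_max_left _ _)).trans hi)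
    have h4 := mul_le_mul_of_nonneg_left h3 (abs_nonneg s)
    rw [mul_one, mul_add] at h4
    have h5 : |s| * (2 * ∑ p ∈ QD (i + 1) (i + 2), Real.log p / 2 ^ (i + 1)) =
        2 * (|s| * ∑ p ∈ QD (i + 1) (i + 1 + 1), Real.log p / 2 ^ (i + 1)) := by ring
    rw [h5] at h4
    linarith
  by_contra hne
  have hpos : 0 < |s| := abs_pos.2 hne
  have := key (|s| / 108) (by positivity)
  linarith

/-! ### means along windows -/

noncomputable section

variable {x w : ℕ → ℕ}

/-- logarithmic averages over the windows `(x i / w i, x i]` -/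
def avgW (x w : ℕ → ℕ) (φ : ℕ → ℝ) (i : ℕ) : ℝ :=
  (1 / Real.log (w i : ℝ)) * (S φ (x i) - S φ (x i / w i))

/-- the data of the windows -/
structure Wd (x w : ℕ → ℕ) : Prop where
  three : ∀ i, i + 3 ≤ w i
  le : ∀ i, w i ≤ x i

lemma Wd.one_le (hW : Wd x w) (i : ℕ) : 1 ≤ Real.log (w i : ℝ) :=
  one_le_log (by have := hW.three i; omega)

lemma Wd.tend (hW : Wd x w) : Tendsto (fun i => Real.log (w i : ℝ)) atTop atTop := by
  refine log_tendsto.comp (tendsto_atTop_mono (fun i => ?_) tendsto_id)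
  have := hW.three i
  show i ≤ w i
  omega

lemma Wd.div_pos (hW : Wd x w) (i : ℕ) : 1 ≤ x i / w i :=
  Nat.div_pos (hW.le i) (by have := hW.three i; omega)

lemma Wd.log_upper (hW : Wd x w) (i : ℕ) :
    Real.log (x i : ℝ) ≤ Real.log (w i : ℝ) + Real.log (((x i / w i : ℕ) : ℝ) + 1) := by
  have h0 : 0 < w i := by have := hW.three i; omega
  rw [← Real.log_mul (by positivity) (by positivity)]
  apply Real.log_le_log
  · have := hW.le i
    exact_mod_cast (by omega : 0 < x i)
  · have h4 : x i < (x i / w i + 1) * w i := by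
      have := Nat.lt_mul_div_succ (x i) h0
      rw [mul_comm]
      exact this
    have : (x i : ℝ) ≤ ((x i / w i : ℕ) + 1 : ℝ) * w i := by exact_mod_cast h4.le
    linarith

lemma Wd.log_lower (hW : Wd x w) (i : ℕ) :
    Real.log (w i : ℝ) + Real.log ((x i / w i : ℕ) : ℝ) ≤ Real.log (x i : ℝ) := by
  have h0 : 0 < w i := by have := hW.three i; omega
  have h1 := hW.div_pos i
  rw [← Real.log_mul (by positivity) (by positivity)]
  apply Real.log_le_log (by positivity)
  exact_mod_cast Nat.mul_div_le (x i) (w i)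

lemma Wd.H_upper (hW : Wd x w) (i : ℕ) : H (x i) - H (x i / w i) ≤ 1 + Real.log (w i : ℝ) := by
  have h1 := H_le (x i)
  have h2 := le_H (x i / w i)
  have h3 := hW.log_upper i
  linarith

lemma Wd.H_lower (hW : Wd x w) (i : ℕ) : Real.log (w i : ℝ) - 1 ≤ H (x i) - H (x i / w i) := by
  have h1 := le_H (x i)
  have h2 := H_le (x i / w i)
  have h3 := hW.log_lower i
  have h4 : Real.log (x i : ℝ) ≤ Real.log ((x i : ℝ) + 1) := by
    have := hW.le i
    have := hW.three i
    apply Real.log_le_log _ (by linarith)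
    exact_mod_cast (by omega : 0 < x i)
  linarith

lemma avgW_bound (hW : Wd x w) {φ : ℕ → ℝ} {C : ℝ} (h : ∀ n, |φ n| ≤ C) (i : ℕ) :
    |avgW x w φ i| ≤ 2 * C := by
  have hC : 0 ≤ C := (abs_nonneg _).trans (h 0)
  have hl := hW.one_le i
  unfold avgW
  rw [abs_mul, abs_of_nonneg (by positivity : (0 : ℝ) ≤ 1 / Real.log (w i))]
  have h1 := S_sub_bound h (Nat.div_le_self (x i) (w i))
  have h2 := hW.H_upper i
  rw [div_mul_eq_mul_div, one_mul, div_le_iff₀ (by linarith)]
  calc |S φ (x i) - S φ (x i / w i)| ≤ C * (H (x i) - H (x i / w i)) := h1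
    _ ≤ C * (1 + Real.log (w i)) := mul_le_mul_of_nonneg_left h2 hC
    _ ≤ 2 * C * Real.log (w i) := by nlinarith

lemma small_of_bddW (hW : Wd x w) {a : ℕ → ℝ} {K : ℝ} (h : ∀ i, |a i| ≤ K) :
    Tendsto (fun i : ℕ => (1 / Real.log (w i : ℝ)) * a i) atTop (nhds 0) := by
  have h1 : Tendsto (fun i : ℕ => K / Real.log (w i : ℝ)) atTop (nhds 0) :=
    Tendsto.div_atTop tendsto_const_nhds hW.tend
  apply squeeze_zero_norm' _ h1
  filter_upwards with i
  have hl := hW.one_le i
  rw [Real.norm_eq_abs, abs_mul, abs_of_nonneg (by positivity : (0 : ℝ) ≤ 1 / Real.log (w i)),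
    div_mul_eq_mul_div, one_mul]
  exact div_le_div_of_nonneg_right (h i) (by linarith)

lemma exists_limW (hW : Wd x w) (U : Ultrafilter ℕ) {φ : ℕ → ℝ} (h : Bd φ) :
    ∃ L, Tendsto (avgW x w φ) U (nhds L) := by
  obtain ⟨C, hC⟩ := h
  have h1 : ∀ᶠ i in (U : Filter ℕ), avgW x w φ i ∈ Set.Icc (-(2 * C)) (2 * C) := by
    filter_upwards with i
    have := avgW_bound hW hC i
    rw [abs_le] at this
    exact this
  obtain ⟨L, _, hL⟩ := (isCompact_Icc (a := -(2 * C)) (b := 2 * C)).ultrafilter_le_nhds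
    (U.map (avgW x w φ)) (by
      rw [le_principal_iff]
      exact h1)
  exact ⟨L, hL⟩

/-- limit along an ultrafilter -/
def lmW (x w : ℕ → ℕ) (U : Ultrafilter ℕ) (φ : ℕ → ℝ) : ℝ :=
  open Classical in if h : ∃ L, Tendsto (avgW x w φ) U (nhds L) then h.choose else 0

lemma lmW_eq {U : Ultrafilter ℕ} {φ : ℕ → ℝ} {a : ℝ} (h : Tendsto (avgW x w φ) U (nhds a)) :
    lmW x w U φ = a := by
  unfold lmW
  have h' : ∃ L, Tendsto (avgW x w φ) U (nhds L) := ⟨a, h⟩
  rw [dif_pos h']
  exact tendsto_nhds_unique h'.choose_spec h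

lemma lmW_tendsto (hW : Wd x w) {U : Ultrafilter ℕ} {φ : ℕ → ℝ} (h : Bd φ) :
    Tendsto (avgW x w φ) U (nhds (lmW x w U φ)) := by
  obtain ⟨L, hL⟩ := exists_limW hW U h
  rw [lmW_eq hL]; exact hL

lemma lmW_eq_of_diff (hW : Wd x w) {U : Ultrafilter ℕ} (hU : (U : Filter ℕ) ≤ atTop) {φ ψ : ℕ → ℝ}
    (h : Bd ψ) {K : ℝ} (hd : ∀ N, |S φ N - S ψ N| ≤ K) : lmW x w U φ = lmW x w U ψ := by
  apply lmW_eq
  have h1 : Tendsto (fun i : ℕ => (1 / Real.log (w i : ℝ)) *
      ((S φ (x i) - S ψ (x i)) - (S φ (x i / w i) - S ψ (x i / w i)))) U (nhds 0) := by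
    refine (small_of_bddW hW (K := 2 * K) fun i => ?_).mono_left hU
    refine (abs_sub _ _).trans ?_
    have := hd (x i)
    have := hd (x i / w i)
    linarith
  have h2 := (lmW_tendsto hW h (U := U)).add h1
  rw [add_zero] at h2
  refine h2.congr fun i => ?_
  unfold avgW
  ring

/-- partial summation over a window -/
lemma abelW (φ : ℕ → ℝ) (c C0 : ℝ) (hc : 0 ≤ c) (hC0 : 0 ≤ C0)
    (hS : ∀ N : ℕ, |∑ n ∈ Icc 1 N, φ n| ≤ c * N + C0) (y : ℕ) (hy : 1 ≤ y) (N : ℕ) (hN : y ≤ N) :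
    S φ N - S φ y ≤ (∑ n ∈ Icc 1 N, φ n) / N - (∑ n ∈ Icc 1 y, φ n) / y +
      c * (Real.log N - Real.log y) + C0 * (1 / y - 1 / N) := by
  induction N, hN using Nat.le_induction with
  | base => simp
  | succ N hN ih =>
    have hN0 : (0 : ℝ) < N := by exact_mod_cast (by omega : 0 < N)
    have hN1 : (0 : ℝ) < (N : ℝ) + 1 := by linarith
    rw [S_succ, sum_Icc_succ_top (by omega)]
    push_cast
    set A := ∑ n ∈ Icc 1 N, φ n with hSd
    have h1 : A * (1 / N - 1 / (N + 1)) ≤ c / (N + 1) + C0 * (1 / N - 1 / (N + 1)) := by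
      have h2 : (0 : ℝ) ≤ 1 / N - 1 / (N + 1) := by
        rw [sub_nonneg]
        exact one_div_le_one_div_of_le hN0 (by linarith)
      have h3 := mul_le_mul_of_nonneg_right ((le_abs_self _).trans (hS N)) h2
      refine h3.trans (le_of_eq ?_)
      field_simp
      ring
    have h4 : c / (N + 1) ≤ c * (Real.log ((N : ℝ) + 1) - Real.log N) := by
      have h5 := Real.one_sub_inv_le_log_of_pos (x := ((N : ℝ) + 1) / N) (by positivity)
      rw [Real.log_div hN1.ne' hN0.ne'] at h5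
      have h6 : 1 - (((N : ℝ) + 1) / N)⁻¹ = 1 / (N + 1) := by
        rw [inv_div]
        field_simp
        ring
      rw [h6] at h5
      calc c / (N + 1) = c * (1 / (N + 1)) := by ring
        _ ≤ _ := mul_le_mul_of_nonneg_left h5 hc
    have e : (A + φ (N + 1)) / ((N : ℝ) + 1) = A / N - A * (1 / N - 1 / (N + 1)) +
        1 / ((N : ℝ) + 1) * φ (N + 1) := by
      field_simp
      ring
    rw [e]
    have e2 : C0 * (1 / y - 1 / ((N : ℝ) + 1)) = C0 * (1 / y - 1 / N) + C0 * (1 / N - 1 / (N + 1)) := by ring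
    rw [e2]
    have e3 : c * (Real.log ((N : ℝ) + 1) - Real.log y) =
      c * (Real.log (N : ℝ) - Real.log y) + c * (Real.log ((N : ℝ) + 1) - Real.log N) := by ring
    rw [e3]
    linarith

/-- the mean along an ultrafilter -/
def mW (hW : Wd x w) (U : Ultrafilter ℕ) (hU : (U : Filter ℕ) ≤ atTop) : LM where
  m := lmW x w U
  add := by
    intro φ ψ hφ hψ
    apply lmW_eq
    refine ((lmW_tendsto hW hφ).add (lmW_tendsto hW hψ)).congr fun i => ?_
    unfold avgW
    rw [S_add, S_add]; ring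
  smul := by
    intro c φ hφ
    apply lmW_eq
    refine ((lmW_tendsto hW hφ).const_mul c).congr fun i => ?_
    unfold avgW
    rw [S_smul, S_smul]; ring
  nonneg := by
    intro φ hφ h0
    apply ge_of_tendsto (lmW_tendsto hW hφ)
    filter_upwards with i
    have := hW.one_le i
    refine mul_nonneg (by positivity) ?_
    rw [sub_nonneg]
    unfold S
    refine sum_le_sum_of_subset_of_nonneg ?_ fun n _ _ => mul_nonneg (by positivity) (h0 n)
    intro n hn
    rw [mem_Icc] at hn ⊢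
    exact ⟨hn.1, hn.2.trans (Nat.div_le_self _ _)⟩
  one := by
    apply lmW_eq
    apply Tendsto.mono_left _ hU
    have h1 : Tendsto (fun i : ℕ => 1 + (1 / Real.log (w i : ℝ)) *
        ((H (x i) - H (x i / w i)) - Real.log (w i))) atTop (nhds (1 + 0)) := by
      apply Tendsto.add tendsto_const_nhds
      apply small_of_bddW hW (K := 1)
      intro i
      have h1 := hW.H_upper i
      have h2 := hW.H_lower i
      rw [abs_le]; constructor <;> linarith
    rw [add_zero] at h1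
    refine h1.congr fun i => ?_
    have := hW.one_le i
    unfold avgW
    rw [S_one, S_one]
    field_simp
    ring
  shift := by
    intro φ hφ
    obtain ⟨C, hC⟩ := hφ
    exact lmW_eq_of_diff hW hU ⟨C, hC⟩ (shift_diff hC)
  dil := by
    intro p φ hp hφ
    obtain ⟨C, hC⟩ := hφ
    refine lmW_eq_of_diff hW hU ⟨p * C, fun n => ?_⟩ (dil_diff hC hp)
    have hC0 : 0 ≤ C := (abs_nonneg _).trans (hC 0)
    dsimp only
    split_ifs
    · rw [abs_mul, abs_of_nonneg (by positivity : (0 : ℝ) ≤ (p : ℝ))]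
      exact mul_le_mul_of_nonneg_left (hC n) (by positivity)
    · rw [abs_zero]; positivity

lemma mW_le (hW : Wd x w) (U : Ultrafilter ℕ) (hU : (U : Filter ℕ) ≤ atTop) (φ : ℕ → ℝ) (hφ : Bd φ)
    (c : ℝ) (hc : 0 ≤ c) (h : ∃ N₀ : ℕ, ∀ N : ℕ, N₀ ≤ N → |∑ n ∈ Icc 1 N, φ n| ≤ c * N) :
    (mW hW U hU).m φ ≤ c := by
  obtain ⟨N₀, hN₀⟩ := h
  obtain ⟨B, hB⟩ := id hφ
  have hB0 : 0 ≤ B := (abs_nonneg _).trans (hB 0)
  set C0 : ℝ := B * N₀ with hC0
  have hC00 : 0 ≤ C0 := by positivity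
  have hS : ∀ N : ℕ, |∑ n ∈ Icc 1 N, φ n| ≤ c * N + C0 := by
    intro N
    rcases le_total N₀ N with h1 | h1
    · exact (hN₀ N h1).trans (by linarith)
    · refine (abs_sum_le_sum_abs _ _).trans ((sum_le_sum fun n _ => hB n).trans ?_)
      rw [sum_const, Nat.card_Icc, nsmul_eq_mul, Nat.add_sub_cancel]
      have h2 : (N : ℝ) ≤ N₀ := by exact_mod_cast h1
      have h3 : (N : ℝ) * B ≤ C0 := by rw [hC0, mul_comm]; exact mul_le_mul_of_nonneg_left h2 hB0
      have h4 : 0 ≤ c * N := by positivity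
      linarith
  have key : ∀ i, avgW x w φ i ≤ c + (1 / Real.log (w i : ℝ)) * (3 * c + 3 * C0) := by
    intro i
    have hl := hW.one_le i
    have hy := hW.div_pos i
    have hx := Nat.div_le_self (x i) (w i)
    have h1 := abelW φ c C0 hc hC00 hS (x i / w i) hy (x i) hx
    have hdiv : ∀ N : ℕ, 1 ≤ N → |(∑ n ∈ Icc 1 N, φ n) / N| ≤ c + C0 := by
      intro N hN
      have hN0 : (1 : ℝ) ≤ N := by exact_mod_cast hN
      rw [abs_div, Nat.abs_cast, div_le_iff₀ (by linarith)]
      refine (hS N).trans ?_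
      nlinarith
    have h2 := (abs_le.1 (hdiv _ hy)).1
    have h3 := (abs_le.1 (hdiv (x i) (hy.trans hx))).2
    have h4 : Real.log (x i : ℝ) - Real.log ((x i / w i : ℕ) : ℝ) ≤ Real.log (w i : ℝ) + 1 := by
      have h5 := hW.log_upper i
      have h6 : Real.log (((x i / w i : ℕ) : ℝ) + 1) ≤ Real.log ((x i / w i : ℕ) : ℝ) + 1 := by
        have h7 : (1 : ℝ) ≤ ((x i / w i : ℕ) : ℝ) := by exact_mod_cast hy
        have h8 : Real.log (((x i / w i : ℕ) : ℝ) + 1) ≤ Real.log (((x i / w i : ℕ) : ℝ) * 2) :=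
          Real.log_le_log (by positivity) (by linarith)
        rw [Real.log_mul (by positivity) (by norm_num)] at h8
        have h9 := Real.log_two_lt_d9
        linarith
      linarith
    have h5 : C0 * (1 / ((x i / w i : ℕ) : ℝ) - 1 / (x i : ℝ)) ≤ C0 := by
      have h7 : (1 : ℝ) ≤ ((x i / w i : ℕ) : ℝ) := by exact_mod_cast hy
      have h8 : 1 / ((x i / w i : ℕ) : ℝ) ≤ 1 := by
        rw [div_le_one (by linarith)]; exact h7
      have h9 : 0 ≤ 1 / (x i : ℝ) := by positivity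
      nlinarith
    have h6 := mul_le_mul_of_nonneg_left h4 hc
    have h7 : S φ (x i) - S φ (x i / w i) ≤ c * Real.log (w i : ℝ) + (3 * c + 3 * C0) := by
      nlinarith
    unfold avgW
    have h8 : (0 : ℝ) < Real.log (w i : ℝ) := by linarith
    have h9 := mul_le_mul_of_nonneg_left h7 (by positivity : (0 : ℝ) ≤ 1 / Real.log (w i : ℝ))
    refine h9.trans (le_of_eq ?_)
    field_simp
  have h1 : Tendsto (fun i : ℕ => c + (1 / Real.log (w i : ℝ)) * (3 * c + 3 * C0)) atTop
      (nhds (c + 0)) := by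
    apply Tendsto.add tendsto_const_nhds
    exact small_of_bddW hW (K := 3 * c + 3 * C0) fun i => by
      rw [abs_of_nonneg (by positivity)]
  rw [add_zero] at h1
  exact le_of_tendsto_of_tendsto (lmW_tendsto hW hφ) (h1.mono_left hU)
    (Filter.Eventually.of_forall key)

/-- **Tao's theorem over windows.** -/
theorem tao_window (hf : ∀ n, |f n| ≤ 1) (hfl : ∀ p m : ℕ, p.Prime → ¬ p ∣ m → f (p * m) = - f m)
    (hE : ExpoSmall (fun n => (f n : ℂ))) (h : ℕ) (hh : 1 ≤ h) (ε : ℝ) (hε : 0 < ε) :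
    ∃ W₀ : ℕ, ∀ w x : ℕ, W₀ ≤ w → w ≤ x → |S (ps f h) x - S (ps f h) (x / w)| ≤ ε * Real.log w := by
  by_contra hcon
  push Not at hcon
  choose w x h1 h2 h3 using fun i : ℕ => hcon (i + 3)
  have hW : Wd x w := ⟨h1, h2⟩
  have hU : ((hyperfilter ℕ : Ultrafilter ℕ) : Filter ℕ) ≤ atTop := by
    rw [← Nat.cofinite_eq_atTop]
    exact hyperfilter_le_cofinite
  set M := mW hW (hyperfilter ℕ) hU with hM
  have h4 : M.m (ps f h) = 0 := mean_zero' hf hfl hE M (fun φ hφ c hc h => mW_le hW _ hU φ hφ c hc h) h hh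
  have h5 : Tendsto (avgW x w (ps f h)) (hyperfilter ℕ : Ultrafilter ℕ) (nhds (M.m (ps f h))) :=
    lmW_tendsto hW (ps_bd hf h)
  rw [h4] at h5
  have h6 := h5.abs
  rw [abs_zero] at h6
  have h7 : ε ≤ 0 := by
    refine ge_of_tendsto h6 (Filter.Eventually.of_forall fun i => ?_)
    have hl := hW.one_le i
    have h8 := h3 i
    unfold avgW
    rw [abs_mul, abs_of_nonneg (by positivity : (0 : ℝ) ≤ 1 / Real.log (w i)), div_mul_eq_mul_div,
      one_mul, le_div_iff₀ (by linarith)]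
    exact h8.le
  linarith

end

end Pool.Agent.Y955.CH
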